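import Pool.Agent.H849.SEC.Comp
import Pool.Graph.R_pool_sql_team_seeded_620a6dc7.Helper812_WR.Filt

/-!
# The defects and the generic fibre
-/

set_option autoImplicit false

namespace Pool.Agent.H849.SEC

open Module Submodule Pool.Agent.Y143 Pool.Agent.R942.WB Pool.Agent.R942.WM

universe u v

variable {Ω : Type u} [Field Ω] [CharZero Ω] {Γ : Type} {n q : ℕ}

section Bd

variable (X : SpecialFibre.{u, v} Ω Γ n q)

lemma tot_neg (i l : ℤ) : X.tot (-i) l = X.tot i l := by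
  unfold SpecialFibre.tot
  have := X.E₁_neg i (n + l - i)
  rwa [show (n : ℤ) + l - i + 2 * i = n + l - -i by ring] at this

lemma bd_neg_le' {i : ℤ} (hi : 1 ≤ i) (l : ℤ) : Bd X.diff X.tot (-i) l ≤ Bd X.diff X.tot i l := by
  rintro _ ⟨x, hx, rfl⟩
  refine ⟨x, ?_, by rw [X.diff_neg]⟩
  have h1 : x ∈ X.tot (i + 1) (l - 1) := by
    rw [← tot_neg, show -(i + 1) = -i - 1 by ring]
    exact hx
  exact X.mem_E₁_cast rfl (by ring) (X.E₁_incl hi h1)

lemma zc_neg_le' {i : ℤ} (hi : 1 ≤ i) (l : ℤ) : Zc X.diff X.tot (-i) l ≤ Zc X.diff X.tot i l := by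
  rintro x ⟨h1, h2⟩
  refine ⟨?_, X.diff_out (w := 0) hi h2⟩
  rw [← tot_neg]
  exact h1

lemma bd_le_zc' (i l : ℤ) : Bd X.diff X.tot i l ≤ Zc X.diff X.tot i l := by
  rintro _ ⟨x, hx, rfl⟩
  refine ⟨X.mem_E₁_cast (by ring) (by ring) (X.diff_mem hx), ?_⟩
  have := X.diff_diff hx
  rw [SetLike.mem_coe, LinearMap.mem_ker]
  rwa [show i - 1 + 1 = i by ring] at this

lemma kap_eq_zero_iff {i : ℤ} (hi : 1 ≤ i) (l : ℤ) :
    kap X.diff X.tot i l = 0 ↔ NInj X.diff X.tot i l := by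
  have h1 : Bd X.diff X.tot (-i) l ≤ Zc X.diff X.tot (-i) l ⊓ Bd X.diff X.tot i l :=
    le_inf (bd_le_zc' X _ _) (bd_neg_le' X hi l)
  constructor
  · intro h
    have := Submodule.eq_of_le_of_finrank_eq h1 (by unfold kap at h; omega)
    exact this.ge
  · intro h
    unfold kap
    rw [le_antisymm h h1, sub_self]

lemma cok_eq_zero_iff {i : ℤ} (hi : 1 ≤ i) (l : ℤ) :
    cok X.diff X.tot i l = 0 ↔ NSurj X.diff X.tot i l := by
  have h1 : Zc X.diff X.tot (-i) l ⊔ Bd X.diff X.tot i l ≤ Zc X.diff X.tot i l :=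
    sup_le (zc_neg_le' X hi l) (bd_le_zc' X _ _)
  constructor
  · intro h
    have := Submodule.eq_of_le_of_finrank_eq h1 (by unfold cok at h; omega)
    exact this.ge
  · intro h
    unfold cok
    rw [le_antisymm h1 h, sub_self]

lemma kap_le (i l : ℤ) : kap X.diff X.tot i l ≤ finrank Ω (X.tot (-i) l) := by
  have h1 : Zc X.diff X.tot (-i) l ⊓ Bd X.diff X.tot i l ≤ X.tot (-i) l :=
    inf_le_left.trans inf_le_left
  have h2 := Submodule.finrank_mono h1
  unfold kap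
  omega

lemma cok_le (i l : ℤ) : cok X.diff X.tot i l ≤ finrank Ω (X.tot i l) := by
  have h1 : Zc X.diff X.tot i l ≤ X.tot i l := inf_le_left
  have h2 := Submodule.finrank_mono h1
  unfold cok
  omega

end Bd

section Gen

variable (X : SemistableModel.{u, v} Ω Γ n q)

lemma nInj_of_weightInj {m k : ℕ} (h : WeightInj X m k) :
    NInj X.diff X.tot k ((m : ℤ) - n) := by
  rintro x ⟨hx1, hx2⟩
  rw [hzc] at hx1
  rw [hbd] at hx2 ⊢
  obtain ⟨w, hw⟩ := X.sp_right m ((m : ℤ) + k) x (by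
    rwa [show (m : ℤ) - (m + k) = -k by ring, show (m : ℤ) + k = m - -k by ring])
  have h1 := X.N_pow_sp hw k le_rfl
  have h2 := (X.sp_ker m _ _ _ h1).2 (by
    rwa [show (m : ℤ) - ((m : ℤ) + k - 2 * k) = k by ring,
      show (m : ℤ) + k - 2 * k = m - k by ring])
  have h3 := h w (X.sp_mem m _ _ _ hw).1 (X.W_cast (by ring) h2)
  have h4 := (X.sp_ker m _ _ _ hw).1 h3
  rwa [show (m : ℤ) - (m + k) = -k by ring, show (m : ℤ) + k = m - -k by ring] at h4

lemma nSurj_of_weightSurj {m k : ℕ} (h : WeightSurj X m k) :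
    NSurj X.diff X.tot k ((m : ℤ) - n) := by
  intro y hy
  rw [hzc] at hy
  obtain ⟨w, hw⟩ := X.sp_right m ((m : ℤ) - k) y (by
    rwa [show (m : ℤ) - (m - k) = k by ring])
  obtain ⟨w', hw', hd⟩ := h w (X.sp_mem m _ _ _ hw).1
  obtain ⟨x, hx⟩ := X.sp_left m _ w' hw'
  have h1 := X.N_pow_sp hx k le_rfl
  have h2 : (w - (X.N m ^ k) w', y - x) ∈ X.sp m ((m : ℤ) - k) :=
    Submodule.sub_mem _ hw (X.sp_cast (by ring) h1)
  have h3 := (X.sp_ker m _ _ _ h2).1 hd
  have h4 := (X.sp_mem m _ _ _ hx).2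
  refine Submodule.mem_sup.2 ⟨x, ?_, y - x, ?_, by abel⟩
  · rw [hzc]
    rwa [show (m : ℤ) - (m + k) = -k by ring, show (m : ℤ) + k = m - -k by ring] at h4
  · rw [hbd]
    rwa [show (m : ℤ) - (m - k) = k by ring] at h3

/-- mw purity in terms of the `E_2` term. -/
theorem pure_iff_E₂ [IsAlgClosed Ω] (hq : 1 < q) (m : ℕ) :
    IsPureIn X m ↔ ∀ k : ℕ, 1 ≤ k → NInj X.diff X.tot k ((m : ℤ) - n) ∧
      NSurj X.diff X.tot k ((m : ℤ) - n) := by
  constructor
  · rintro ⟨M, hM, hMs, hMw⟩ k hk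
    have := finite_V X m
    have h1 : Helper812_WR.IsWeightFiltration q m (X.actV m X.frob) M :=
      ⟨hM.mono, hM.bot, hM.top, hMs, hMw⟩
    have h2 : ∀ a, M a = X.W m (m + a) := fun a =>
      h1.eq hq (Helper812_WR.isWeightFiltration_W X m) a
    constructor
    · apply nInj_of_weightInj
      intro w hw hN
      have h3 := hM.inj k w (by rw [h2]; exact hw) (by
        rw [h2]
        rwa [show (m : ℤ) + (-(k : ℤ) - 1) = m - k - 1 by ring])
      rw [h2] at h3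
      rwa [show (m : ℤ) + ((k : ℤ) - 1) = m + k - 1 by ring] at h3
    · apply nSurj_of_weightSurj
      intro y hy
      obtain ⟨w, hw, hyw⟩ := hM.surj k y (by
        rw [h2]
        rwa [show (m : ℤ) + -(k : ℤ) = m - k by ring])
      rw [h2] at hw hyw
      exact ⟨w, hw, by rwa [show (m : ℤ) + (-(k : ℤ) - 1) = m - k - 1 by ring] at hyw⟩
  · intro h
    exact X.isMWPure_of m (fun a ha => (h a ha).1) (fun a ha => (h a ha).2)

/-- The kernel defect on the `E_2` term. -/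
theorem kernelDefect_eq (m k : ℕ) (hk : 1 ≤ k) :
    kernelDefect X m k = kap X.diff X.tot k ((m : ℤ) - n) := by
  have := finite_V X m
  have hk' : (1 : ℤ) ≤ k := by exact_mod_cast hk
  have hp : X.W m ((m : ℤ) + k - 1) ≤ kernelSpace X m k := by
    intro w hw
    refine ⟨X.W_mono m (by omega) hw, ?_⟩
    rw [SetLike.mem_coe, Submodule.mem_comap]
    have := N_pow_W X hw k
    exact X.W_mono m (by omega) this
  have hz : Bd X.diff X.tot (-k) ((m : ℤ) - n) ≤
      Zc X.diff X.tot (-k) ((m : ℤ) - n) ⊓ Bd X.diff X.tot k ((m : ℤ) - n) :=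
    le_inf (bd_le_zc' X.toSpecialFibre _ _) (bd_neg_le' X.toSpecialFibre hk' _)
  have hmem : ∀ w x, (w, x) ∈ X.sp m ((m : ℤ) + k) → (w ∈ kernelSpace X m k ↔
      x ∈ Zc X.diff X.tot (-k) ((m : ℤ) - n) ⊓ Bd X.diff X.tot k ((m : ℤ) - n)) := by
    intro w x hx
    have h0 := X.sp_mem m _ _ _ hx
    have h1 := X.N_pow_sp hx k le_rfl
    have h2 := X.sp_ker m _ _ _ h1
    rw [show (m : ℤ) - ((m : ℤ) + k - 2 * k) = k by ring,
      show (m : ℤ) + k - 2 * k = m - k by ring, ← hbd] at h2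
    have h3 : x ∈ Zc X.diff X.tot (-k) ((m : ℤ) - n) := by
      rw [hzc]
      have := h0.2
      rwa [show (m : ℤ) - (m + k) = -k by ring, show (m : ℤ) + k = m - -k by ring] at this
    constructor
    · rintro ⟨-, h4⟩
      exact ⟨h3, h2.1 h4⟩
    · rintro ⟨-, h4⟩
      exact ⟨h0.1, h2.2 h4⟩
  have hker : ∀ w x, (w, x) ∈ X.sp m ((m : ℤ) + k) → (w ∈ X.W m ((m : ℤ) + k - 1) ↔
      x ∈ Bd X.diff X.tot (-k) ((m : ℤ) - n)) := by
    intro w x hx
    have h1 := X.sp_ker m _ _ _ hx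
    rw [show (m : ℤ) - ((m : ℤ) + k) = -k by ring] at h1
    rw [hbd, show (m : ℤ) - -(k : ℤ) = m + k by ring]
    exact h1
  apply le_antisymm
  · apply finrank_rel (X.sp m ((m : ℤ) + k)) hp hz
    · intro w hw
      obtain ⟨x, hx⟩ := X.sp_left m _ w hw.1
      exact ⟨x, (hmem w x hx).1 hw, hx⟩
    · intro w x hw hx hwx hx0
      exact (hker w x hwx).2 hx0
  · apply finrank_rel ((X.sp m ((m : ℤ) + k)).comap (LinearEquiv.prodComm Ω X.C (X.V m)).toLinearMap) hz hp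
    · intro x hx
      have h0 : x ∈ X.cocycles (-k) ((m : ℤ) - -k) := by
        rw [← hzc]
        exact hx.1
      obtain ⟨w, hw⟩ := X.sp_right m ((m : ℤ) + k) x (by
        rwa [show (m : ℤ) - (m + k) = -k by ring, show (m : ℤ) + k = m - -k by ring])
      exact ⟨w, (hmem w x hw).2 hx, hw⟩
    · intro x w hx hw hwx hw0
      exact (hker w x hwx).1 hw0

/-- The cokernel defect on the `E_2` term. -/
theorem cokernelDefect_eq (m k : ℕ) (hk : 1 ≤ k) :
    cokernelDefect X m k = cok X.diff X.tot k ((m : ℤ) - n) := by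
  have := finite_V X m
  have hk' : (1 : ℤ) ≤ k := by exact_mod_cast hk
  have hp : imageSpace X m k ≤ X.W m ((m : ℤ) - k) := by
    apply sup_le
    · rintro _ ⟨w, hw, rfl⟩
      have := N_pow_W X hw k
      rwa [show (m : ℤ) + k - 2 * k = m - k by ring] at this
    · exact X.W_mono m (by omega)
  have hz : Zc X.diff X.tot (-k) ((m : ℤ) - n) ⊔ Bd X.diff X.tot k ((m : ℤ) - n) ≤
      Zc X.diff X.tot k ((m : ℤ) - n) :=
    sup_le (zc_neg_le' X.toSpecialFibre hk' _) (bd_le_zc' X.toSpecialFibre _ _)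
  have hcast : ∀ x, x ∈ Zc X.diff X.tot k ((m : ℤ) - n) ↔
      x ∈ X.cocycles ((m : ℤ) - (m - k)) (m - k) := by
    intro x
    rw [hzc, show (m : ℤ) - (m - k) = k by ring]
  have hmem : ∀ w x, (w, x) ∈ X.sp m ((m : ℤ) - k) → (w ∈ imageSpace X m k ↔
      x ∈ Zc X.diff X.tot (-k) ((m : ℤ) - n) ⊔ Bd X.diff X.tot k ((m : ℤ) - n)) := by
    intro w x hx
    constructor
    · intro hw
      obtain ⟨_, ⟨w1, hw1, rfl⟩, w0, hw0, rfl⟩ := Submodule.mem_sup.1 hw
      obtain ⟨x1, hx1⟩ := X.sp_left m _ w1 hw1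
      have h1 := X.sp_cast (show (m : ℤ) + k - 2 * k = m - k by ring) (X.N_pow_sp hx1 k le_rfl)
      have h2 := Submodule.sub_mem _ hx h1
      have h3 : (w0, x - x1) ∈ X.sp m ((m : ℤ) - k) := by
        have e : ((X.N m ^ k) w1 + w0, x) - ((X.N m ^ k) w1, x1) = (w0, x - x1) := by
          rw [Prod.mk_sub_mk, add_sub_cancel_left]
        rwa [e] at h2
      have h4 := (X.sp_ker m _ _ _ h3).1 hw0
      have h5 := (X.sp_mem m _ _ _ hx1).2
      refine Submodule.mem_sup.2 ⟨x1, ?_, x - x1, ?_, by abel⟩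
      · rw [hzc]
        rwa [show (m : ℤ) - (m + k) = -k by ring, show (m : ℤ) + k = m - -k by ring] at h5
      · rw [hbd]
        rwa [show (m : ℤ) - (m - k) = k by ring] at h4
    · intro h
      obtain ⟨x1, hx1, b, hb, rfl⟩ := Submodule.mem_sup.1 h
      rw [hzc] at hx1
      obtain ⟨w1, hw1⟩ := X.sp_right m ((m : ℤ) + k) x1 (by
        rwa [show (m : ℤ) - (m + k) = -k by ring, show (m : ℤ) + k = m - -k by ring])
      have h1 := X.sp_cast (show (m : ℤ) + k - 2 * k = m - k by ring) (X.N_pow_sp hw1 k le_rfl)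
      have h2 := Submodule.sub_mem _ hx h1
      have h3 : (w - (X.N m ^ k) w1, b) ∈ X.sp m ((m : ℤ) - k) := by
        have e : (w, x1 + b) - ((X.N m ^ k) w1, x1) = (w - (X.N m ^ k) w1, b) := by
          rw [Prod.mk_sub_mk, add_sub_cancel_left]
        rwa [e] at h2
      have h4 := (X.sp_ker m _ _ _ h3).2 (by
        rw [hbd] at hb
        rwa [show (m : ℤ) - (m - k) = k by ring])
      refine Submodule.mem_sup.2 ⟨(X.N m ^ k) w1, ⟨w1, (X.sp_mem m _ _ _ hw1).1, rfl⟩,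
        w - (X.N m ^ k) w1, h4, by abel⟩
  apply le_antisymm
  · apply finrank_rel (X.sp m ((m : ℤ) - k)) hp hz
    · intro w hw
      obtain ⟨x, hx⟩ := X.sp_left m _ w hw
      exact ⟨x, (hcast x).2 (X.sp_mem m _ _ _ hx).2, hx⟩
    · intro w x hw hx hwx hx0
      exact (hmem w x hwx).2 hx0
  · apply finrank_rel ((X.sp m ((m : ℤ) - k)).comap (LinearEquiv.prodComm Ω X.C (X.V m)).toLinearMap) hz hp
    · intro x hx
      obtain ⟨w, hw⟩ := X.sp_right m ((m : ℤ) - k) x ((hcast x).1 hx)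
      exact ⟨w, (X.sp_mem m _ _ _ hw).1, hw⟩
    · intro x w hx hw hwx hw0
      exact (hmem w x hwx).1 hw0

end Gen

end Pool.Agent.H849.SEC
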