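import Pool.Agent.H849.SEC.Fam
import Pool.Graph.R_pool_sql_team_seeded_b0a926ef.R942.WB.Count

/-!
# Comparison of an ample map with the virtual section
-/

set_option autoImplicit false

namespace Pool.Agent.H849.SEC

open Module Submodule Pool.Agent.Y143 Pool.Agent.R942.WB

universe u v

/-! ### Linear algebra -/

/-- `K` is a direct summand of the complex `Z`, and the differential vanishes on the complement. -/
structure Retract {Ω : Type*} [Field Ω] {C K : Type*} [AddCommGroup C] [Module Ω C]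
    [AddCommGroup K] [Module Ω K] (d : ℤ → Module.End Ω C) (G : ℤ → ℤ → Submodule Ω C)
    (d' : ℤ → Module.End Ω K) (G' : ℤ → ℤ → Submodule Ω K) (j : K →ₗ[Ω] C) (p : C →ₗ[Ω] K) :
    Prop where
  pj : ∀ k, p (j k) = k
  jG : ∀ i l k, k ∈ G' i l → j k ∈ G i l
  pG : ∀ i l z, z ∈ G i l → p z ∈ G' i l
  jd : ∀ i k, j (d' i k) = d i (j k)
  pd : ∀ i z, p (d i z) = d' i (p z)
  van : ∀ i l z, z ∈ G i l → p z = 0 → d i z = 0
  neg : ∀ i l, G (-i) l = G i l

namespace Retract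

variable {Ω : Type*} [Field Ω] {C K : Type*} [AddCommGroup C] [Module Ω C]
  [AddCommGroup K] [Module Ω K] {d : ℤ → Module.End Ω C} {G : ℤ → ℤ → Submodule Ω C}
  {d' : ℤ → Module.End Ω K} {G' : ℤ → ℤ → Submodule Ω K} {j : K →ₗ[Ω] C} {p : C →ₗ[Ω] K}

lemma d_eq (h : Retract d G d' G' j p) {i l : ℤ} {z : C} (hz : z ∈ G i l) :
    d i z = j (d' i (p z)) := by
  have h1 : d i (z - j (p z)) = 0 := by
    apply h.van i l _ (Submodule.sub_mem _ hz (h.jG _ _ _ (h.pG _ _ _ hz)))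
    rw [map_sub, h.pj, sub_self]
  rw [map_sub, sub_eq_zero] at h1
  rw [h1, h.jd]

lemma j_zc (h : Retract d G d' G' j p) {i l : ℤ} {k : K} (hk : k ∈ Zc d' G' i l) :
    j k ∈ Zc d G i l := by
  refine ⟨h.jG _ _ _ hk.1, ?_⟩
  rw [SetLike.mem_coe, LinearMap.mem_ker, ← h.jd, show d' i k = 0 from hk.2, map_zero]

lemma p_zc (h : Retract d G d' G' j p) {i l : ℤ} {z : C} (hz : z ∈ Zc d G i l) :
    p z ∈ Zc d' G' i l := by
  refine ⟨h.pG _ _ _ hz.1, ?_⟩
  rw [SetLike.mem_coe, LinearMap.mem_ker, ← h.pd, show d i z = 0 from hz.2, map_zero]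

lemma j_bd (h : Retract d G d' G' j p) {i l : ℤ} {k : K} (hk : k ∈ Bd d' G' i l) :
    j k ∈ Bd d G i l := by
  obtain ⟨y, hy, rfl⟩ := hk
  exact ⟨j y, h.jG _ _ _ hy, (h.jd _ _).symm⟩

lemma p_bd (h : Retract d G d' G' j p) {i l : ℤ} {z : C} (hz : z ∈ Bd d G i l) :
    p z ∈ Bd d' G' i l := by
  obtain ⟨y, hy, rfl⟩ := hz
  exact ⟨p y, h.pG _ _ _ hy, (h.pd _ _).symm⟩

/-- A coboundary is the image of a coboundary. -/
lemma bd_eq (h : Retract d G d' G' j p) {i l : ℤ} {z : C} (hz : z ∈ Bd d G i l) :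
    z = j (p z) := by
  obtain ⟨y, hy, rfl⟩ := hz
  rw [h.pd, ← h.d_eq hy]

lemma van_mem (h : Retract d G d' G' j p) {i l : ℤ} {z : C} (hz : z ∈ G i l) (h0 : p z = 0) :
    z ∈ Zc d G i l := ⟨hz, h.van i l z hz h0⟩

theorem nInj_iff (h : Retract d G d' G' j p) (i l : ℤ) : NInj d G i l ↔ NInj d' G' i l := by
  constructor
  · intro hI k hk
    have h1 := h.p_bd (hI ⟨h.j_zc hk.1, h.j_bd hk.2⟩)
    rwa [h.pj] at h1
  · intro hI z hz
    rw [h.bd_eq hz.2]
    exact h.j_bd (hI ⟨h.p_zc hz.1, h.p_bd hz.2⟩)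

theorem nSurj_iff (h : Retract d G d' G' j p) (i l : ℤ) : NSurj d G i l ↔ NSurj d' G' i l := by
  constructor
  · intro hS k hk
    obtain ⟨u, hu, b, hb, hub⟩ := Submodule.mem_sup.1 (hS (h.j_zc hk))
    refine Submodule.mem_sup.2 ⟨p u, h.p_zc hu, p b, h.p_bd hb, ?_⟩
    rw [← map_add, hub, h.pj]
  · intro hS z hz
    obtain ⟨u, hu, b, hb, hub⟩ := Submodule.mem_sup.1 (hS (h.p_zc hz))
    have h0 : z - j (p z) ∈ Zc d G (-i) l := by
      apply h.van_mem
      · rw [h.neg]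
        exact Submodule.sub_mem _ hz.1 (h.jG _ _ _ (h.pG _ _ _ hz.1))
      · rw [map_sub, h.pj, sub_self]
    refine Submodule.mem_sup.2 ⟨j u + (z - j (p z)), Submodule.add_mem _ (h.j_zc hu) h0, j b,
      h.j_bd hb, ?_⟩
    rw [← hub, map_add]
    abel

variable [FiniteDimensional Ω C]

theorem kap_eq (h : Retract d G d' G' j p) (i l : ℤ) : kap d G i l = kap d' G' i l := by
  have key : ∀ S : Submodule Ω C, ∀ S' : Submodule Ω K, (∀ z ∈ S, z = j (p z)) →
      (∀ z ∈ S, p z ∈ S') → (∀ k ∈ S', j k ∈ S) → finrank Ω S = finrank Ω S' := by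
    intro S S' h1 h2 h3
    have e1 := finrank_map_add_ker p S
    have e2 : S ⊓ LinearMap.ker p = ⊥ := by
      rw [eq_bot_iff]
      rintro z ⟨hz, hz0⟩
      rw [h1 z hz, show p z = 0 from hz0, map_zero]
      exact Submodule.zero_mem _
    have e3 : S.map p = S' := by
      apply le_antisymm
      · rintro _ ⟨z, hz, rfl⟩
        exact h2 z hz
      · intro k hk
        exact ⟨j k, h3 k hk, h.pj k⟩
    rw [e2, e3, finrank_bot] at e1
    omega
  unfold kap
  rw [key (Zc d G (-i) l ⊓ Bd d G i l) (Zc d' G' (-i) l ⊓ Bd d' G' i l)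
      (fun z hz => h.bd_eq hz.2) (fun z hz => ⟨h.p_zc hz.1, h.p_bd hz.2⟩)
      (fun k hk => ⟨h.j_zc hk.1, h.j_bd hk.2⟩),
    key (Bd d G (-i) l) (Bd d' G' (-i) l) (fun z hz => h.bd_eq hz) (fun z hz => h.p_bd hz)
      (fun k hk => h.j_bd hk)]

theorem cok_eq (h : Retract d G d' G' j p) (i l : ℤ)
    (hout : ∀ z ∈ Zc d G (-i) l, z ∈ G i l) (hbd : ∀ z ∈ Bd d G i l, z ∈ G i l) :
    cok d G i l = cok d' G' i l := by
  have e1 := finrank_map_add_ker p (Zc d G i l)
  have e2 := finrank_map_add_ker p (Zc d G (-i) l ⊔ Bd d G i l)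
  have e3 : (Zc d G i l).map p = Zc d' G' i l := by
    apply le_antisymm
    · rintro _ ⟨z, hz, rfl⟩
      exact h.p_zc hz
    · intro k hk
      exact ⟨j k, h.j_zc hk, h.pj k⟩
  have e4 : (Zc d G (-i) l ⊔ Bd d G i l).map p = Zc d' G' (-i) l ⊔ Bd d' G' i l := by
    rw [Submodule.map_sup]
    congr 1
    · apply le_antisymm
      · rintro _ ⟨z, hz, rfl⟩
        exact h.p_zc hz
      · intro k hk
        exact ⟨j k, h.j_zc hk, h.pj k⟩
    · apply le_antisymm
      · rintro _ ⟨z, hz, rfl⟩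
        exact h.p_bd hz
      · intro k hk
        exact ⟨j k, h.j_bd hk, h.pj k⟩
  have e5 : Zc d G i l ⊓ LinearMap.ker p = (Zc d G (-i) l ⊔ Bd d G i l) ⊓ LinearMap.ker p := by
    apply le_antisymm
    · rintro z ⟨hz, hz0⟩
      refine ⟨Submodule.mem_sup_left (h.van_mem ?_ hz0), hz0⟩
      rw [h.neg]
      exact hz.1
    · rintro z ⟨hz, hz0⟩
      refine ⟨h.van_mem ?_ hz0, hz0⟩
      obtain ⟨u, hu, b, hb, rfl⟩ := Submodule.mem_sup.1 hz
      exact Submodule.add_mem _ (hout u hu) (hbd b hb)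
  rw [e3, e5] at e1
  rw [e4] at e2
  unfold cok
  omega

end Retract

/-! ### Ample maps -/

variable {Ω : Type u} [Field Ω] [CharZero Ω] {Γ : Type} {n q c : ℕ}

section V

variable (X : SpecialFibre.{u, v} Ω Γ (n + c) q)

/-- The projection to the virtual section. -/
noncomputable def mv (a : ℕ) : X.H a →ₗ[Ω] (virt X).H a := mk X c a

/-- The embedding of the virtual section given by `L ^ c`. -/
noncomputable def lv (a : ℕ) : (virt X).H a →ₗ[Ω] X.H a := em X c a

lemma mv_surj (a : ℕ) (k : (virt X).H a) : ∃ x, mv X a x = k := mk_surj X c a k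

lemma lv_mv (a : ℕ) (x : X.H a) : lv X a (mv X a x) = (X.lef a ^ c) x := em_mk X c a x

lemma lv_injective (a : ℕ) {k l : (virt X).H a} (h : lv X a k = lv X a l) : k = l := by
  rw [← sub_eq_zero]
  apply em_inj X c a
  exact (map_sub (lv X a) _ _).trans (sub_eq_zero.2 h)

lemma mv_mem (a : ℕ) (m : ℤ) {k : (virt X).H a} :
    k ∈ (virt X).gr a m ↔ ∃ x ∈ X.gr a m, mv X a x = k := Iff.rfl

lemma pair_mv (a : ℕ) (x y : X.H a) :
    (virt X).pair a (mv X a x) (mv X a y) = X.pair a x ((X.lef a ^ c) y) := pair_mk X c a x y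

lemma lef_mv (a : ℕ) (x : X.H a) : (virt X).lef a (mv X a x) = mv X a (X.lef a x) := rfl

lemma res_mv (a : ℕ) (x : X.H a) : (virt X).res a (mv X a x) = mv X (a + 1) (X.res a x) := rfl

lemma gys_mv (a : ℕ) (x : X.H (a + 1)) :
    (virt X).gys a (mv X (a + 1) x) = mv X a (X.gys a x) := rfl

lemma mv_eq_zero (a : ℕ) {x : X.H a} : mv X a x = 0 ↔ (X.lef a ^ c) x = 0 := mk_eq_zero X c a

lemma lv_res (a : ℕ) (k : (virt X).H a) :
    lv X (a + 1) ((virt X).res a k) = X.res a (lv X a k) := by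
  obtain ⟨x, rfl⟩ := mv_surj X a k
  rw [lv_mv, res_mv, res_pow, lv_mv]

lemma lv_gys (a : ℕ) (k : (virt X).H (a + 1)) :
    lv X a ((virt X).gys a k) = X.gys a (lv X (a + 1) k) := by
  obtain ⟨x, rfl⟩ := mv_surj X (a + 1) k
  rw [lv_mv, gys_mv, gys_pow, lv_mv]

end V

namespace Amp

variable {X : SpecialFibre.{u, v} Ω Γ (n + c) q} {Z : SpecialFibre.{u, v} Ω Γ n q}
  {f : Maps X.toStrataData Z.toStrataData} {t : Ω} (hf : f.IsAmple n c t)

include hf

lemma pull_gr {a : ℕ} {m : ℤ} {x : X.H a} (hx : x ∈ X.gr a m) : f.pull a x ∈ Z.gr a m :=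
  (hf.ample a).degree m x hx

lemma pair_pull (a : ℕ) (x : X.H a) (z : Z.H a) :
    Z.pair a (f.pull a x) z = X.pair a x (f.push a z) := (hf.ample a).transpose x z

lemma push_pull (a : ℕ) (x : X.H a) : f.push a (f.pull a x) = t • (X.lef a ^ c) x :=
  (hf.ample a).composite x

lemma pull_surj {a : ℕ} {m : ℤ} (hm : m < (n : ℤ) - a) {z : Z.H a} (hz : z ∈ Z.gr a m) :
    ∃ x ∈ X.gr a m, f.pull a x = z := (hf.ample a).weakLefschetz m hm z hz

lemma pull_res (a : ℕ) (x : X.H a) : f.pull (a + 1) (X.res a x) = Z.res a (f.pull a x) :=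
  hf.res a x

lemma pull_gys (a : ℕ) (x : X.H (a + 1)) : f.pull a (X.gys a x) = Z.gys a (f.pull (a + 1) x) :=
  hf.gys a x

/-- The push-forward is also the left transpose. -/
lemma pair_push (a : ℕ) (z : Z.H a) (x : X.H a) :
    X.pair a (f.push a z) x = Z.pair a z (f.pull a x) := by
  refine X.gr_induction (P := fun x => X.pair a (f.push a z) x = Z.pair a z (f.pull a x))
    (by simp) (fun y x hy hx => by rw [map_add, map_add, map_add, hy, hx]) (fun m y hy => ?_) x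
  rw [X.pair_symm a m y _ hy, Z.pair_symm a m _ _ (pull_gr hf hy), pair_pull hf]

lemma push_gr {a : ℕ} {m : ℤ} {z : Z.H a} (hz : z ∈ Z.gr a m) :
    f.push a z ∈ X.gr a (m + 2 * c) := by
  apply X.mem_gr_of_pair
  intro m' y hy hne
  rw [pair_push hf]
  exact Z.pair_gr a m m' _ _ hz (pull_gr hf hy) (by push_cast at hne; omega)

lemma push_res (a : ℕ) (z : Z.H a) : f.push (a + 1) (Z.res a z) = X.res a (f.push a z) := by
  rw [← sub_eq_zero]
  apply X.pair_nondeg'
  intro x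
  rw [map_sub, ← pair_pull hf, ← Z.pair_gys, ← pull_gys hf, pair_pull hf, X.pair_gys, sub_self]

lemma push_gys (a : ℕ) (z : Z.H (a + 1)) : f.push a (Z.gys a z) = X.gys a (f.push (a + 1) z) := by
  rw [← sub_eq_zero]
  apply X.pair_nondeg'
  intro x
  rw [map_sub, ← pair_pull hf, ← Z.pair_res, ← pull_res hf, pair_pull hf, X.pair_res, sub_self]

/-- The image of the push-forward is contained in the image of `L ^ c`. -/
lemma push_mem_range (a : ℕ) (z : Z.H a) : ∃ w : X.H a, (X.lef a ^ c) w = f.push a z := by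
  refine Z.gr_induction (P := fun z => ∃ w : X.H a, (X.lef a ^ c) w = f.push a z)
    ⟨0, by simp⟩ ?_ (fun m z hz => ?_) z
  · rintro y z ⟨v, hv⟩ ⟨w, hw⟩
    exact ⟨v + w, by rw [map_add, map_add, hv, hw]⟩
  · rcases lt_or_ge m ((n : ℤ) - a) with hm | hm
    · obtain ⟨x, _, rfl⟩ := pull_surj hf hm hz
      exact ⟨t • x, by rw [map_smul, push_pull hf]⟩
    · obtain ⟨s, hs⟩ := Int.eq_ofNat_of_zero_le (show 0 ≤ m - ((n : ℤ) - a) by omega)
      have h1 := push_gr hf hz
      obtain ⟨u, _, hu⟩ := X.lef_surj a (c + s) (f.push a z) (by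
        rwa [show (((n + c : ℕ) : ℤ)) - a + ((c + s : ℕ) : ℤ) = m + 2 * c by push_cast; omega])
      refine ⟨(X.lef a ^ s) u, ?_⟩
      rw [← hu, pow_add, Module.End.mul_apply]

lemma pull_eq_zero {a : ℕ} {x : X.H a} (h : (X.lef a ^ c) x = 0) : f.pull a x = 0 := by
  apply Z.pair_nondeg
  intro z
  rw [pair_pull hf]
  obtain ⟨w, hw⟩ := push_mem_range hf a z
  rw [← hw, ← pair_pow, h, map_zero, LinearMap.zero_apply]

/-- The elements killed by the push-forward only occur in the middle degree. -/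
lemma van_zero {a : ℕ} {m : ℤ} (hm : m ≠ (n : ℤ) - a) {z : Z.H a} (hz : z ∈ Z.gr a m)
    (h : f.push a z = 0) : z = 0 := by
  rcases lt_or_gt_of_ne hm with hm | hm
  · obtain ⟨x, _, rfl⟩ := pull_surj hf hm hz
    rw [push_pull hf] at h
    exact pull_eq_zero hf ((smul_eq_zero.1 h).resolve_left hf.ne_zero)
  · apply Z.pair_nondeg
    intro y
    refine Z.gr_induction (P := fun y => Z.pair a z y = 0) (by simp)
      (fun x y hx hy => by rw [map_add, hx, hy, add_zero]) (fun m' y hy => ?_) y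
    by_cases hmm : m + m' = 2 * ((n : ℤ) - a)
    · obtain ⟨x, _, rfl⟩ := pull_surj hf (show m' < (n : ℤ) - a by omega) hy
      rw [← pair_push hf, h, map_zero, LinearMap.zero_apply]
    · exact Z.pair_gr a _ _ _ _ hz hy hmm

/-- The embedding of the virtual section. -/
noncomputable def jn (a : ℕ) : (virt X).H a →ₗ[Ω] Z.H a :=
  (LinearMap.ker (X.lef a ^ c)).liftQ (f.pull a) fun _ hx =>
    LinearMap.mem_ker.2 (pull_eq_zero hf (LinearMap.mem_ker.1 hx))

lemma jn_mv (a : ℕ) (x : X.H a) : jn hf a (mv X a x) = f.pull a x := rfl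

lemma exists_pr (a : ℕ) : ∃ P : Z.H a →ₗ[Ω] (virt X).H a,
    ∀ z, lv X a (P z) = t⁻¹ • f.push a z := by
  let e := LinearEquiv.ofInjective (lv X a) (fun k l h => lv_injective X a h)
  have h1 : ∀ z : Z.H a, (t⁻¹ • f.push a) z ∈ LinearMap.range (lv X a) := by
    intro z
    obtain ⟨w, hw⟩ := push_mem_range hf a z
    refine ⟨mv X a (t⁻¹ • w), ?_⟩
    rw [lv_mv, map_smul, hw]
    rfl
  refine ⟨e.symm.toLinearMap ∘ₗ LinearMap.codRestrict _ (t⁻¹ • f.push a) h1, fun z => ?_⟩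
  have h2 := congrArg Subtype.val (e.apply_symm_apply
    (LinearMap.codRestrict _ (t⁻¹ • f.push a) h1 z))
  exact h2

/-- The projection to the virtual section. -/
noncomputable def pr (a : ℕ) : Z.H a →ₗ[Ω] (virt X).H a := (exists_pr hf a).choose

lemma lv_pr (a : ℕ) (z : Z.H a) : lv X a (pr hf a z) = t⁻¹ • f.push a z :=
  (exists_pr hf a).choose_spec z

lemma pr_pull (a : ℕ) (x : X.H a) : pr hf a (f.pull a x) = mv X a x := by
  apply lv_injective X a
  rw [lv_pr, push_pull hf, smul_smul, inv_mul_cancel₀ hf.ne_zero, one_smul, lv_mv]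

lemma pr_jn (a : ℕ) (k : (virt X).H a) : pr hf a (jn hf a k) = k := by
  obtain ⟨x, rfl⟩ := mv_surj X a k
  exact pr_pull hf a x

lemma pr_eq_zero {a : ℕ} {z : Z.H a} (h : pr hf a z = 0) : f.push a z = 0 := by
  have h1 := lv_pr hf a z
  rw [h, map_zero] at h1
  exact (smul_eq_zero.1 h1.symm).resolve_left (inv_ne_zero hf.ne_zero)

lemma pr_res (a : ℕ) (z : Z.H a) : pr hf (a + 1) (Z.res a z) = (virt X).res a (pr hf a z) := by
  apply lv_injective X (a + 1)
  rw [lv_res, lv_pr, lv_pr, push_res hf, map_smul]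

lemma pr_gys (a : ℕ) (z : Z.H (a + 1)) :
    pr hf a (Z.gys a z) = (virt X).gys a (pr hf (a + 1) z) := by
  apply lv_injective X a
  rw [lv_gys, lv_pr, lv_pr, push_gys hf, map_smul]

lemma jn_res (a : ℕ) (k : (virt X).H a) : jn hf (a + 1) ((virt X).res a k) = Z.res a (jn hf a k) := by
  obtain ⟨x, rfl⟩ := mv_surj X a k
  rw [jn_mv, ← pull_res hf, res_mv, jn_mv]

lemma jn_gys (a : ℕ) (k : (virt X).H (a + 1)) :
    jn hf a ((virt X).gys a k) = Z.gys a (jn hf (a + 1) k) := by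
  obtain ⟨x, rfl⟩ := mv_surj X (a + 1) k
  rw [jn_mv, ← pull_gys hf, gys_mv, jn_mv]

lemma jn_gr {a : ℕ} {m : ℤ} {k : (virt X).H a} (hk : k ∈ (virt X).gr a m) :
    jn hf a k ∈ Z.gr a m := by
  obtain ⟨x, hx, rfl⟩ := (mv_mem X a m).1 hk
  rw [jn_mv]
  exact pull_gr hf hx

lemma pr_gr {a : ℕ} {m : ℤ} {z : Z.H a} (hz : z ∈ Z.gr a m) :
    pr hf a z ∈ (virt X).gr a m := by
  apply (virt X).mem_gr_of_pair
  intro m' y hy hne
  obtain ⟨x, hx, rfl⟩ := (mv_mem X a m').1 hy
  obtain ⟨w, hw⟩ := mv_surj X a (pr hf a z)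
  have h1 : (X.lef a ^ c) w = t⁻¹ • f.push a z := by rw [← lv_mv, hw, lv_pr]
  rw [← hw, pair_mv, ← pair_pow, h1, map_smul, LinearMap.smul_apply, pair_push hf,
    Z.pair_gr a m m' _ _ hz (pull_gr hf hx) (by omega), smul_zero]

/-- The embedding on families. -/
noncomputable def jC : (virt X).C →ₗ[Ω] Z.C where
  toFun k a := jn hf a (k a)
  map_add' x y := by funext a; exact map_add (jn hf a) _ _
  map_smul' s x := by funext a; exact map_smul (jn hf a) _ _

/-- The projection on families. -/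
noncomputable def pC : Z.C →ₗ[Ω] (virt X).C where
  toFun z a := pr hf a (z a)
  map_add' x y := by funext a; exact map_add (pr hf a) _ _
  map_smul' s x := by funext a; exact map_smul (pr hf a) _ _

lemma jC_diff (r : ℤ) (k : (virt X).C) : jC hf ((virt X).diff r k) = Z.diff r (jC hf k) := by
  funext a
  rw [Z.diff_apply]
  show jn hf a ((virt X).diff r k a) = _
  rw [(virt X).diff_apply]
  by_cases h : InColumn (r + 1) a
  · rw [(virt X).cut_of h, Z.cut_of h]
    cases a with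
    | zero =>
      show jn hf 0 ((0 : (virt X).H 0) + (virt X).gys 0 (k 1)) =
        (0 : Z.H 0) + Z.gys 0 (jn hf 1 (k 1))
      rw [map_add, map_zero]
      congr 1
      exact jn_gys hf 0 (k 1)
    | succ a =>
      show jn hf (a + 1) ((virt X).res a (k a) + (virt X).gys (a + 1) (k (a + 2))) =
        Z.res a (jn hf a (k a)) + Z.gys (a + 1) (jn hf (a + 2) (k (a + 2)))
      rw [map_add, jn_res, jn_gys]
  · rw [(virt X).cut_of_not h, Z.cut_of_not h, map_zero]

lemma pC_diff (r : ℤ) (z : Z.C) : pC hf (Z.diff r z) = (virt X).diff r (pC hf z) := by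
  funext a
  rw [(virt X).diff_apply]
  show pr hf a (Z.diff r z a) = _
  rw [Z.diff_apply]
  by_cases h : InColumn (r + 1) a
  · rw [(virt X).cut_of h, Z.cut_of h]
    cases a with
    | zero =>
      show pr hf 0 ((0 : Z.H 0) + Z.gys 0 (z 1)) =
        (0 : (virt X).H 0) + (virt X).gys 0 (pr hf 1 (z 1))
      rw [map_add, map_zero]
      congr 1
      exact pr_gys hf 0 (z 1)
    | succ a =>
      show pr hf (a + 1) (Z.res a (z a) + Z.gys (a + 1) (z (a + 2))) =
        (virt X).res a (pr hf a (z a)) + (virt X).gys (a + 1) (pr hf (a + 2) (z (a + 2)))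
      rw [map_add, pr_res, pr_gys]
  · rw [(virt X).cut_of_not h, Z.cut_of_not h, map_zero]

lemma jC_mem {r w : ℤ} {k : (virt X).C} (hk : k ∈ (virt X).E₁ r w) : jC hf k ∈ Z.E₁ r w := by
  intro a
  refine ⟨jn_gr hf (hk a).1, fun h => ?_⟩
  show jn hf a (k a) = 0
  rw [(hk a).2 h, map_zero]

lemma pC_mem {r w : ℤ} {z : Z.C} (hz : z ∈ Z.E₁ r w) : pC hf z ∈ (virt X).E₁ r w := by
  intro a
  refine ⟨pr_gr hf (hz a).1, fun h => ?_⟩
  show pr hf a (z a) = 0
  rw [(hz a).2 h, map_zero]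

lemma van_E₁ {r w : ℤ} (h : r + w ≠ n) {z : Z.C} (hz : z ∈ Z.E₁ r w) (h0 : pC hf z = 0) :
    z = 0 := by
  funext a
  apply van_zero hf _ (hz a).1 (pr_eq_zero hf (congrFun h0 a))
  omega

theorem retract : Retract Z.diff Z.tot (virt X).diff (virt X).tot (jC hf) (pC hf) where
  pj k := by funext a; exact pr_jn hf a (k a)
  jG i l k hk := jC_mem hf hk
  pG i l z hz := pC_mem hf hz
  jd i k := jC_diff hf i k
  pd i z := pC_diff hf i z
  van i l z hz h0 := by
    by_cases h : i + ((n : ℤ) + l - i) = n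
    · apply van_E₁ hf (r := i + 1) (w := (n : ℤ) + l - i) (by omega) (Z.diff_mem hz)
      rw [pC_diff, h0, map_zero]
    · rw [van_E₁ hf h hz h0, map_zero]
  neg i l := by
    unfold SpecialFibre.tot
    have := Z.E₁_neg i (n + l - i)
    rwa [show (n : ℤ) + l - i + 2 * i = n + l - -i by ring] at this

end Amp

end Pool.Agent.H849.SEC
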