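import Pool.Graph.R_seed8.X302.MW.Defs

/-!
# Ample maps between strictly semistable schemes: definitions

Let `X` be a projective strictly semistable scheme over `O` of relative dimension `n + c`, with a
polarization `L`. We consider maps `f : Z → X` of projective strictly semistable schemes, `Z` of
relative dimension `n`, which are composites of

* inclusions of divisors of sections of (positive multiples of) the polarization which are transversal
  to all the strata of the special fibre, and
* finite coverings `w ^ k + a_1 w ^ (k - 1) + ⋯ + a_k = 0`, where `a_j` is a section of the `j`-th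
  multiple of (a positive multiple of) the polarization, for example cyclic coverings `w ^ k = a`
  with `k` invertible in the residue field, transversal to the strata.

The strata of `Z` are the inverse images of the strata of `X`. On the cohomology of the strata there
are the pull-backs and the push-forwards, which are transposes of each other; the composite of the
pull-back and the push-forward is a nonzero multiple of `L ^ c`, and the pull-back is surjective in the
degrees less than the dimension of the stratum of `Z` (weak Lefschetz theorem).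
-/

set_option autoImplicit false

namespace Pool.Agent.H849.SEC

open Module Pool.Agent.Y143
open Pool.Agent.X302.MW (ControlledAt)

universe u v

section Variety

variable {Ω : Type u} [Field Ω] {H : Type v} [AddCommGroup H] [Module Ω H] {H' : Type v}
  [AddCommGroup H'] [Module Ω H']

/-- `i : H → H'` is the pull-back and `g : H' → H` is the push-forward for a map of smooth projective
varieties `Z → Y` (`Z` of dimension `d`), which is a composite of inclusions of ample divisors and of
ample coverings: `i` has degree `0`, `g` is the transpose of `i` for the Poincare pairings, `g ∘ i` is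
`t` times the cup product with the `c`-th power of the polarization `L` of `Y`, and `i` is surjective
in the degrees less than `d` (the weak Lefschetz theorem). -/
structure IsAmplePair (gr : ℤ → Submodule Ω H) (gr' : ℤ → Submodule Ω H') (d : ℤ)
    (B : H →ₗ[Ω] H →ₗ[Ω] Ω) (B' : H' →ₗ[Ω] H' →ₗ[Ω] Ω) (L : Module.End Ω H) (c : ℕ) (t : Ω)
    (i : H →ₗ[Ω] H') (g : H' →ₗ[Ω] H) : Prop where
  degree : ∀ m x, x ∈ gr m → i x ∈ gr' m
  transpose : IsTranspose B B' i g
  composite : ∀ x, g (i x) = t • pw L c x
  weakLefschetz : ∀ m, m < d → ∀ y ∈ gr' m, ∃ x ∈ gr m, i x = y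

/-- The maps `i` and `i₁` commute with the maps `ρ` and `ρ'`. -/
def Intertwines {H₁ : Type v} [AddCommGroup H₁] [Module Ω H₁] {H₁' : Type v} [AddCommGroup H₁']
    [Module Ω H₁'] (ρ : H →ₗ[Ω] H₁) (ρ' : H' →ₗ[Ω] H₁') (i : H →ₗ[Ω] H') (i₁ : H₁ →ₗ[Ω] H₁') :
    Prop :=
  ∀ x, i₁ (ρ x) = ρ' (i x)

end Variety

variable {Ω : Type u} [Field Ω] {Γ : Type}

/-- The pull-backs and the push-forwards between the cohomology of the strata. -/
structure Maps (X Z : StrataData.{u, v} Ω Γ) where
  pull : ∀ a, X.H a →ₗ[Ω] Z.H a
  push : ∀ a, Z.H a →ₗ[Ω] X.H a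

/-- `f : Z → X` is an ample map of strictly semistable schemes, `Z` of relative dimension `n` and `X`
of relative dimension `n + c`: its restrictions to the strata are as in `IsAmplePair`, with the same
`t ≠ 0`, and the pull-backs commute with the restriction and the Gysin maps between the strata. -/
structure Maps.IsAmple {X Z : StrataData.{u, v} Ω Γ} (f : Maps X Z) (n c : ℕ) (t : Ω) :
    Prop where
  ne_zero : t ≠ 0
  ample : ∀ a : ℕ, IsAmplePair (X.gr a) (Z.gr a) (n - a) (X.pair a) (Z.pair a) (X.lef a) c t
    (f.pull a) (f.push a)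
  res : ∀ a : ℕ, Intertwines (X.res a) (Z.res a) (f.pull a) (f.pull (a + 1))
  gys : ∀ a : ℕ, Intertwines (X.gys a) (Z.gys a) (f.pull (a + 1)) (f.pull a)

/-- There is an ample map `Z → X`. -/
def HasAmpleMap (n c : ℕ) (X Z : StrataData.{u, v} Ω Γ) : Prop :=
  ∃ (f : Maps X Z) (t : Ω), f.IsAmple n c t

section Generic

variable [CharZero Ω] {n q : ℕ}

/-- The cohomology group `H^j` of the geometric generic fibre is mw pure of weight `j`. -/
def IsPureIn (Z : SemistableModel.{u, v} Ω Γ n q) (j : ℕ) : Prop :=
  IsMWPure q j (Z.actV j Z.frob) (Z.N j)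

/-- The inverse image of `W_(j - k - 1)` under `N ^ k` in `W_(j + k)`, for the weight filtration `W` of
`H^j`. -/
noncomputable def kernelSpace (Z : SemistableModel.{u, v} Ω Γ n q) (j k : ℕ) :
    Submodule Ω (Z.V j) :=
  Z.W j ((j : ℤ) + k) ⊓ (Z.W j ((j : ℤ) - k - 1)).comap (Z.N j ^ k)

/-- The sum of `N ^ k W_(j + k)` and `W_(j - k - 1)`. -/
noncomputable def imageSpace (Z : SemistableModel.{u, v} Ω Γ n q) (j k : ℕ) :
    Submodule Ω (Z.V j) :=
  (Z.W j ((j : ℤ) + k)).map (Z.N j ^ k) ⊔ Z.W j ((j : ℤ) - k - 1)

/-- The dimension of the kernel of `N ^ k` from the graded piece of weight `j + k` of `H^j` to the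
graded piece of weight `j - k`. -/
noncomputable def kernelDefect (Z : SemistableModel.{u, v} Ω Γ n q) (j k : ℕ) : ℤ :=
  (finrank Ω (kernelSpace Z j k) : ℤ) - finrank Ω (Z.W j ((j : ℤ) + k - 1))

/-- The dimension of the cokernel of `N ^ k` from the graded piece of weight `j + k` of `H^j` to the
graded piece of weight `j - k`. -/
noncomputable def cokernelDefect (Z : SemistableModel.{u, v} Ω Γ n q) (j k : ℕ) : ℤ :=
  (finrank Ω (Z.W j ((j : ℤ) - k)) : ℤ) - finrank Ω (imageSpace Z j k)

/-- All the kernels and cokernels above are zero. -/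
def NoDefects (Z : SemistableModel.{u, v} Ω Γ n q) (j : ℕ) : Prop :=
  ∀ k : ℕ, 1 ≤ k → kernelDefect Z j k = 0 ∧ cokernelDefect Z j k = 0

/-- The dimensions of the kernels and of the cokernels are the same for `Z` and `Z'`. -/
def SameDefects {Γ' : Type} {q' : ℕ} (Z : SemistableModel.{u, v} Ω Γ n q)
    (Z' : SemistableModel.{u, v} Ω Γ' n q') (j : ℕ) : Prop :=
  ∀ k : ℕ, 1 ≤ k →
    kernelDefect Z j k = kernelDefect Z' j k ∧ cokernelDefect Z j k = cokernelDefect Z' j k

/-- The dimension of the term `E_1^(r, w)` of the weight spectral sequence of `X`. -/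
noncomputable def termDim (X : SpecialFibre.{u, v} Ω Γ n q) (r w : ℤ) : ℤ :=
  finrank Ω (X.E₁ r w)

/-- The dimensions of the kernels and of the cokernels for `Z` are bounded by the dimensions of the
terms of the weight spectral sequence of `X`. -/
def DefectsAtMost {Γ' : Type} {N q' : ℕ} (X : SpecialFibre.{u, v} Ω Γ' N q')
    (Z : SemistableModel.{u, v} Ω Γ n q) (j : ℕ) : Prop :=
  ∀ k : ℕ, 1 ≤ k →
    kernelDefect Z j k ≤ termDim X (-k) (j + k) ∧ cokernelDefect Z j k ≤ termDim X k (j - k)

/-- All the characters are controlled in `E_1^(a+1, w)` for `w ≥ 2` and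
`a + 1 + w ≤ min (j, 2n - j)`. -/
def ControlledUpTo {N : ℕ} {X : SpecialFibre.{u, v} Ω Γ N q} (A : DivisorClasses X) (n j : ℕ) :
    Prop :=
  ∀ (a w : ℕ) (χ : Γ → Ω), 2 ≤ w → a + 1 + w ≤ j → a + 1 + w + j ≤ 2 * n → ControlledAt A a w χ

end Generic

end Pool.Agent.H849.SEC
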