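import Pool.Agent.H849.SEC.Virt

/-!
# The weight spectral sequence of the virtual section
-/

set_option autoImplicit false

namespace Pool.Agent.H849.SEC

open Module Pool.Agent.Y143

universe u v

variable {Ω : Type u} [Field Ω] [CharZero Ω] {Γ : Type} {n q c : ℕ}

section Low

variable (X : SpecialFibre.{u, v} Ω Γ (n + c) q)

lemma lefC_pow_mem {N : ℕ} (X : SpecialFibre.{u, v} Ω Γ N q) (s : ℕ) {r w : ℤ} {x : X.C}
    (hx : x ∈ X.E₁ r w) : (X.lefC ^ s) x ∈ X.E₁ r (w + 2 * s) := by
  induction s with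
  | zero => simpa using hx
  | succ s ih =>
    rw [pow_succ', Module.End.mul_apply]
    exact X.mem_E₁_cast rfl (by push_cast; ring) (X.lefC_mem ih)

lemma diff_lefC_pow {N : ℕ} (X : SpecialFibre.{u, v} Ω Γ N q) (s : ℕ) (r : ℤ) (x : X.C) :
    X.diff r ((X.lefC ^ s) x) = (X.lefC ^ s) (X.diff r x) := by
  induction s with
  | zero => rfl
  | succ s ih => rw [pow_succ', Module.End.mul_apply, X.diff_lefC, ih, Module.End.mul_apply]

/-- `L ^ c` is injective in the total degrees at most `n`. -/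
lemma pow_inj {r w : ℤ} (h : r + w ≤ n) {x : X.C} (hx : x ∈ X.E₁ r w)
    (h0 : (X.lefC ^ c) x = 0) : x = 0 := by
  obtain ⟨s, hs⟩ := Int.eq_ofNat_of_zero_le (show 0 ≤ (n : ℤ) - (r + w) by omega)
  apply X.lefC_inj (r := r) (s + c) (X.mem_E₁_cast rfl (by push_cast; omega) hx)
  rw [pow_add, Module.End.mul_apply, h0, map_zero]

/-- `L ^ c` is surjective onto the total degrees at least `n + 2 c`. -/
lemma pow_surj {r w : ℤ} (h : n ≤ r + w) {z : X.C} (hz : z ∈ X.E₁ r (w + 2 * c)) :
    ∃ x ∈ X.E₁ r w, (X.lefC ^ c) x = z := by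
  obtain ⟨s, hs⟩ := Int.eq_ofNat_of_zero_le (show 0 ≤ (r + w) - (n : ℤ) by omega)
  obtain ⟨u, hu, huz⟩ := X.lefC_surj (r := r) (c + s) (y := z)
    (X.mem_E₁_cast rfl (by push_cast; omega) hz)
  refine ⟨(X.lefC ^ s) u, X.mem_E₁_cast rfl (by push_cast; omega) (lefC_pow_mem X s hu), ?_⟩
  rw [← huz, pow_add, Module.End.mul_apply]

/-- The projection of families. -/
noncomputable def mkC : X.C →ₗ[Ω] (virt X).C where
  toFun x a := mk X c a (x a)
  map_add' x y := by funext a; exact map_add _ _ _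
  map_smul' t x := by funext a; exact map_smul _ _ _

lemma mkC_apply (x : X.C) (a : ℕ) : mkC X x a = mk X c a (x a) := rfl

lemma mkC_mem {r w : ℤ} {x : X.C} (hx : x ∈ X.E₁ r w) : mkC X x ∈ (virt X).E₁ r w := by
  intro a
  refine ⟨mk_gr X c a _ (hx a).1, fun h => ?_⟩
  rw [mkC_apply, (hx a).2 h, map_zero]
  rfl

lemma exists_rep {r w : ℤ} {k : (virt X).C} (hk : k ∈ (virt X).E₁ r w) :
    ∃ x ∈ X.E₁ r w, mkC X x = k := by
  classical
  have h1 : ∀ a, ∃ x ∈ X.gr a (w + r - a), mk X c a x = k a := fun a =>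
    (mem_gr X c a _).1 (hk a).1
  choose f hf hf' using h1
  refine ⟨fun a => if InColumn r a then f a else 0, fun a => ?_, ?_⟩
  · by_cases hc : InColumn r a
    · simp only [hc, if_true, not_true_eq_false, IsEmpty.forall_iff, and_true]
      exact hf a
    · simp only [hc, if_false, not_false_eq_true, forall_true_left, and_true]
      exact Submodule.zero_mem _
  · funext a
    rw [mkC_apply]
    by_cases hc : InColumn r a
    · simp only [hc, if_true]
      exact hf' a
    · simp only [hc, if_false, map_zero]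
      exact ((hk a).2 hc).symm

lemma mkC_lef (x : X.C) : (virt X).lefC (mkC X x) = mkC X (X.lefC x) := by
  funext a
  exact lef_mk X c a (x a)

lemma mkC_lef_pow (s : ℕ) (x : X.C) :
    ((virt X).lefC ^ s) (mkC X x) = mkC X ((X.lefC ^ s) x) := by
  induction s with
  | zero => rfl
  | succ s ih => rw [pow_succ', Module.End.mul_apply, ih, mkC_lef, pow_succ',
      Module.End.mul_apply]

lemma mkC_res (x : X.C) : (virt X).resC (mkC X x) = mkC X (X.resC x) := by
  funext a
  cases a with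
  | zero =>
    show (0 : (virt X).H 0) = mk X c 0 0
    rw [map_zero]
    rfl
  | succ a => exact res_mk X c a (x a)

lemma mkC_gys (x : X.C) : (virt X).gysC (mkC X x) = mkC X (X.gysC x) := by
  funext a
  exact gys_mk X c a (x (a + 1))

lemma mkC_cut (r : ℤ) (x : X.C) : (virt X).cut r (mkC X x) = mkC X (X.cut r x) := by
  funext a
  by_cases h : InColumn r a
  · rw [(virt X).cut_of h, mkC_apply, mkC_apply, X.cut_of h]
  · rw [(virt X).cut_of_not h, mkC_apply, X.cut_of_not h, map_zero]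
    rfl

lemma mkC_diff (r : ℤ) (x : X.C) : (virt X).diff r (mkC X x) = mkC X (X.diff r x) := by
  rw [(virt X).diff_apply, X.diff_apply, mkC_res, mkC_gys, ← map_add, mkC_cut]

lemma mkC_act (r : ℤ) (g : Γ) (x : X.C) :
    (virt X).actC r g (mkC X x) = mkC X (X.actC r g x) := by
  funext a
  rw [mkC_apply, X.actC_apply, map_smul, ← act_mk]
  rfl

lemma mkC_eq_zero {x : X.C} : mkC X x = 0 ↔ (X.lefC ^ c) x = 0 := by
  constructor
  · intro h
    funext a
    rw [X.lefC_pow_apply]
    exact (mk_eq_zero X c a).1 (congrFun h a)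
  · intro h
    funext a
    have := congrFun h a
    rw [X.lefC_pow_apply] at this
    exact (mk_eq_zero X c a).2 this

/-- The hard Lefschetz theorem for the cohomology of the virtual section. -/
theorem virt_hardLefschetz (h : X.toStrataData.HasHardLefschetz (n + c)) :
    (virt X).toStrataData.HasHardLefschetz n := by
  intro r s
  rcases Nat.eq_zero_or_pos s with rfl | hs
  · constructor
    · intro x _ hx'
      rw [pow_zero] at hx'
      have e : (n : ℤ) - ((0 : ℕ) : ℤ) - r = n + ((0 : ℕ) : ℤ) - r := by push_cast; ring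
      rw [e]
      exact hx'
    · intro y hy
      have e : (n : ℤ) - ((0 : ℕ) : ℤ) - r = n + ((0 : ℕ) : ℤ) - r := by push_cast; ring
      refine ⟨y, by rw [e]; exact hy, ?_⟩
      rw [pow_zero, Module.End.one_apply, sub_self]
      exact Submodule.zero_mem _
  · have e1 : (((n + c : ℕ) : ℤ)) - ((s + c : ℕ) : ℤ) - r = n - s - r := by push_cast; ring
    have e2 : (((n + c : ℕ) : ℤ)) + ((s + c : ℕ) : ℤ) - r = n + s - r + 2 * c := by
      push_cast; ring
    obtain ⟨hinj, hsurj⟩ := h r (s + c)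
    rw [e1, e2] at hinj hsurj
    constructor
    · rintro k ⟨hk, hk0⟩ hk'
      obtain ⟨x, hx, rfl⟩ := exists_rep X hk
      have h1 : X.diff r x = 0 := by
        apply pow_inj X (r := r + 1) (w := n - s - r) (by omega) (X.diff_mem hx)
        rw [← mkC_eq_zero, ← mkC_diff]
        exact hk0
      obtain ⟨l, hl, hlk⟩ := hk'
      obtain ⟨y, hy, rfl⟩ := exists_rep X hl
      rw [mkC_diff, mkC_lef_pow, ← sub_eq_zero, ← map_sub, mkC_eq_zero, map_sub, sub_eq_zero] at hlk
      have h2 : x ∈ X.coboundaries r (n - s - r) := by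
        apply hinj x ⟨hx, h1⟩
        refine ⟨(X.lefC ^ c) y, lefC_pow_mem X c hy, ?_⟩
        rw [diff_lefC_pow, hlk, add_comm s c, pow_add, Module.End.mul_apply]
      obtain ⟨z, hz, hzx⟩ := h2
      exact ⟨mkC X z, mkC_mem X hz, by rw [mkC_diff, hzx]⟩
    · rintro k ⟨hk, hk0⟩
      obtain ⟨y, hy, rfl⟩ := exists_rep X hk
      have h1 : (X.lefC ^ c) y ∈ X.cocycles r (n + s - r + 2 * c) := by
        refine ⟨lefC_pow_mem X c hy, ?_⟩
        rw [SetLike.mem_coe, LinearMap.mem_ker, diff_lefC_pow, ← mkC_eq_zero, ← mkC_diff]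
        exact hk0
      obtain ⟨x, ⟨hx, hx0⟩, z, hz, hzx⟩ := hsurj _ h1
      obtain ⟨z', hz', rfl⟩ := pow_surj X (r := r - 1) (w := n + s - r) (by omega) hz
      refine ⟨mkC X x, ⟨mkC_mem X hx, ?_⟩, mkC X z', mkC_mem X hz', ?_⟩
      · rw [SetLike.mem_coe, LinearMap.mem_ker, mkC_diff, show X.diff r x = 0 from hx0, map_zero]
      · rw [mkC_diff, mkC_lef_pow, ← map_sub, ← sub_eq_zero, ← map_sub, mkC_eq_zero, map_sub,
          map_sub, ← diff_lefC_pow, hzx, add_comm s c, pow_add, Module.End.mul_apply, sub_self]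

end Low

end Pool.Agent.H849.SEC
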