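import Pool.Graph.R_seed8.Y143.Defs

/-!
# The Hodge-Riemann relations for the strata: definitions
-/

set_option autoImplicit false

namespace Pool.Agent.H849.SEC

open Module Pool.Agent.Y143

universe u v

section Variety

variable {Ω : Type u} [Field Ω] {H : Type v} [AddCommGroup H] [Module Ω H]

/-- The Hodge-Riemann relations in degree `m` for the cohomology of a smooth projective variety of
dimension `d`: `(-1) ^ (m / 2) * B(x, L ^ (d - m) J x)` is positive (belongs to `P`) for all nonzero
primitive classes `x` of degree `m`. Here `J` is a conjugation and `m / 2` is rounded down. -/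
def IsDefinite (gr : ℤ → Submodule Ω H) (d : ℤ) (B : H →ₗ[Ω] H →ₗ[Ω] Ω) (L : Module.End Ω H)
    (J : H →+ H) (P : Set Ω) (m : ℤ) : Prop :=
  ∀ (s : ℕ) (x : H), (s : ℤ) = d - m → x ∈ gr m → pw L (s + 1) x = 0 → x ≠ 0 →
    (-1 : Ω) ^ (m / 2) * ev B x (pw L s (J x)) ∈ P

/-- The additive maps `J` and `J'` commute with the linear map `f`. -/
def CommutesWith {H' : Type v} [AddCommGroup H'] [Module Ω H'] (f : H →ₗ[Ω] H') (J : H →+ H)
    (J' : H' →+ H') : Prop :=
  ∀ x, J' (f x) = f (J x)

end Variety

variable {Ω : Type u} [Field Ω] {Γ : Type}

/-- `P` is a set of positive elements: it is closed under addition and does not contain `0`. -/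
structure IsPositive (P : Set Ω) : Prop where
  add : ∀ x ∈ P, ∀ y ∈ P, x + y ∈ P
  zero : (0 : Ω) ∉ P

/-- The additive maps `J a` on the cohomology of the strata commute with the Lefschetz operator, the
restriction maps and the Gysin maps. -/
structure IsConjugation (X : StrataData.{u, v} Ω Γ) (J : ∀ a, X.H a →+ X.H a) : Prop where
  lef : ∀ a, CommutesWith (X.lef a) (J a) (J a)
  res : ∀ a, CommutesWith (X.res a) (J a) (J (a + 1))
  gys : ∀ a, CommutesWith (X.gys a) (J (a + 1)) (J a)

/-- The strata `Y^(a+1)`, `a ≥ 1`, of the special fibre of a scheme of relative dimension `n` satisfy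
the Hodge-Riemann relations in the degrees `m` with `a + m ≤ k`, with respect to a conjugation which
commutes with the Lefschetz operator and with the restriction and the Gysin maps. For example, this
holds if the cohomology in these degrees (and in the degrees needed to define the conjugation) is
spanned by classes of algebraic cycles which satisfy the Hodge-Riemann relations (the numerical Hodge
standard conjecture), or if the strata with their polarization come from complex projective
varieties. -/
def IsPolarised (X : StrataData.{u, v} Ω Γ) (n : ℕ) (k : ℤ) : Prop :=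
  ∃ (P : Set Ω) (J : ∀ a, X.H a →+ X.H a), IsPositive P ∧ IsConjugation X J ∧
    ∀ (a : ℕ) (m : ℤ), 1 ≤ a → a + m ≤ k →
      IsDefinite (X.gr a) (n - a) (X.pair a) (X.lef a) (J a) P m

end Pool.Agent.H849.SEC
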