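import Pool.Graph.R_seed8.Y143.Pure
import Pool.Agent.H849.SEC.PolDefs

/-!
# The monodromy-weight theorem for polarised strata

This is an elementary proof (without harmonic theory) of the theorem that `N ^ i` is an isomorphism
on the `E_2` term if the strata satisfy the Hodge-Riemann relations. Let `x` be a cocycle in column
`-i` with `L ^ (m + 1) x = 0`. Let `v` be the class with `L ^ (m + 1) v = L ^ m (res x)`. Then
`x ↦ d v` is an injective endomorphism of the critical space.
-/

set_option autoImplicit false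

namespace Pool.Agent.H849.SEC

open Module Submodule Pool.Agent.Y143

universe u v

variable {Ω : Type u} [Field Ω] [CharZero Ω] {Γ : Type} {n q : ℕ}

section Complex

variable (X : SpecialFibre.{u, v} Ω Γ n q)

/-- The weight spectral sequence as a Lefschetz complex. -/
theorem lefComplex_of (hX : X.toStrataData.HasHardLefschetz n) :
    LefComplex X.diff X.lefC X.tot where
  neg i j := by
    unfold SpecialFibre.tot
    have := X.E₁_neg i (n + j - i)
    rwa [show (n : ℤ) + j - i + 2 * i = n + j - -i by ring] at this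
  d_mem i j x hx := X.mem_E₁_cast rfl (by ring) (X.diff_mem hx)
  dd i j x hx := X.diff_diff hx
  L_mem i j x hx := X.mem_E₁_cast rfl (by ring) (X.lefC_mem hx)
  dL i x := X.diff_lefC i x
  bdd := ⟨n, by positivity, fun i j h => X.tot_bdd i j h⟩
  lefInj i m x hx h := X.lefC_inj m (X.mem_E₁_cast rfl (by ring) hx) h
  lefSurj i m y hy := by
    obtain ⟨x, hx, h⟩ := X.lefC_surj (r := i) m (y := y) (X.mem_E₁_cast rfl (by ring) hy)
    exact ⟨x, X.mem_E₁_cast rfl (by ring) hx, h⟩
  out i hi j x _ h := X.diff_out (w := 0) hi h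
  incl i hi j z hz := X.mem_E₁_cast rfl (by ring) (X.E₁_incl hi hz)
  dneg i := X.diff_neg i
  hlInj i m x hx h := by
    rw [X.zc_eq] at hx
    rw [X.bd_eq] at h ⊢
    rw [show (n : ℤ) + -m - i = n - m - i by ring] at hx ⊢
    exact (hX i m).1 x hx h
  hlSurj i m y hy := by
    rw [X.zc_eq] at hy ⊢
    rw [X.bd_eq]
    rw [show (n : ℤ) + -m - i = n - m - i by ring]
    exact (hX i m).2 y hy

/-- In the negative columns the differential is the whole `res + gys`. -/
lemma full_of_diff {i : ℤ} (hi : 1 ≤ i) {w : ℤ} {x : X.C} (hx : x ∈ X.E₁ (-i) w)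
    (h : X.diff (-i) x = 0) : X.resC x + X.gysC x = 0 := by
  funext b
  by_cases hb : 2 ∣ (b : ℤ) - (-i + 1)
  · rw [← X.cut_diff_apply hx hb (Or.inr (by omega)), h]
  · have hg : x (b + 1) = 0 := by
      apply X.eq_zero_of_not_col hx
      rintro ⟨-, h2⟩
      apply hb
      push_cast at h2
      omega
    rw [Pi.add_apply, X.gysC_apply, hg, map_zero, add_zero]
    cases b with
    | zero => rfl
    | succ b =>
      rw [X.resC_succ]
      have : x b = 0 := by
        apply X.eq_zero_of_not_col hx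
        rintro ⟨-, h2⟩
        apply hb
        push_cast
        omega
      rw [this, map_zero]
      rfl

lemma gys_res_zero {i : ℤ} (hi : 1 ≤ i) {w : ℤ} {x : X.C} (hx : x ∈ X.E₁ (-i) w)
    (h : X.resC x + X.gysC x = 0) : X.gysC (X.resC x) = 0 := by
  funext b
  rw [X.gysC_apply, X.resC_succ]
  cases b with
  | zero =>
    have : x 0 = 0 := by
      apply X.eq_zero_of_not_col hx
      rintro ⟨h1, -⟩
      rw [abs_neg, abs_of_nonneg (by omega)] at h1
      push_cast at h1
      omega
    rw [this, map_zero, map_zero]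
    rfl
  | succ b =>
    have h1 := X.res_gys b (x (b + 1))
    have h2 := congrFun h b
    rw [Pi.add_apply, X.gysC_apply] at h2
    have h3 : X.gys b (x (b + 1)) = -X.resC x b := by
      rw [eq_neg_iff_add_eq_zero, add_comm]
      exact h2
    rw [h3, map_neg] at h1
    have h4 : X.res b (X.resC x b) = 0 := by
      cases b with
      | zero => rw [X.resC_zero, map_zero]
      | succ b => rw [X.resC_succ, X.res_res]
    rw [h4, neg_zero, zero_add] at h1
    exact h1

lemma resC_mem_neg {i w : ℤ} (hi : 0 ≤ i) {x : X.C} (hx : x ∈ X.E₁ (-i) w) :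
    X.resC x ∈ X.E₁ (-i - 1) (w + 2) := by
  intro b
  cases b with
  | zero =>
    rw [X.resC_zero]
    exact ⟨Submodule.zero_mem _, fun _ => rfl⟩
  | succ b =>
    rw [X.resC_succ]
    refine ⟨?_, fun h => ?_⟩
    · have := X.res_gr b _ _ (hx b).1
      rwa [show w + 2 + (-i - 1) - ((b + 1 : ℕ) : ℤ) = w + -i - b by push_cast; ring]
    · have : x b = 0 := by
        apply X.eq_zero_of_not_col hx
        rintro ⟨h1, h2⟩
        apply h
        rw [abs_neg, abs_of_nonneg (by omega)] at h1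
        refine ⟨?_, by push_cast; omega⟩
        rw [show -i - 1 = -(i + 1) by ring, abs_neg, abs_of_nonneg (by omega)]
        push_cast
        omega
      rw [this, map_zero]

lemma pow_resC (s : ℕ) (x : X.C) : (X.lefC ^ s) (X.resC x) = X.resC ((X.lefC ^ s) x) := by
  induction s with
  | zero => rfl
  | succ s ih => rw [pow_succ', Module.End.mul_apply, ih, ← X.resC_lefC, Module.End.mul_apply]

end Complex

section Pos

variable {X : SpecialFibre.{u, v} Ω Γ n q} {P : Set Ω} {J : ∀ a, X.H a →+ X.H a}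

lemma J_pow (hJ : IsConjugation X.toStrataData J) (a s : ℕ) (x : X.H a) :
    J a ((X.lef a ^ s) x) = (X.lef a ^ s) (J a x) := by
  induction s with
  | zero => rfl
  | succ s ih => rw [pow_succ', Module.End.mul_apply, hJ.lef, ih, Module.End.mul_apply]

lemma gys_pow' (a s : ℕ) (x : X.H (a + 1)) :
    X.gys a ((X.lef (a + 1) ^ s) x) = (X.lef a ^ s) (X.gys a x) := by
  induction s with
  | zero => rfl
  | succ s ih => rw [pow_succ', Module.End.mul_apply, X.gys_lef, ih, pow_succ',
      Module.End.mul_apply]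

lemma res_pow' (a s : ℕ) (x : X.H a) :
    X.res a ((X.lef a ^ s) x) = (X.lef (a + 1) ^ s) (X.res a x) := by
  induction s with
  | zero => rfl
  | succ s ih => rw [pow_succ', Module.End.mul_apply, X.res_lef, ih, pow_succ',
      Module.End.mul_apply]

/-- The pairing of `(res + gys) y` with `L ^ m (J x)`, in one component. -/
lemma pair_full (hJ : IsConjugation X.toStrataData J) (a m : ℕ) (x y : X.C) :
    X.pair (a + 1) ((X.resC y + X.gysC y) (a + 1)) ((X.lef (a + 1) ^ m) (J (a + 1) (x (a + 1)))) =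
      X.pair a (y a) (J a ((X.lefC ^ m) (X.gysC x) a)) +
        X.pair (a + 2) (y (a + 2)) (J (a + 2) ((X.lefC ^ m) (X.resC x) (a + 2))) := by
  rw [Pi.add_apply, X.resC_succ, X.gysC_apply, map_add, LinearMap.add_apply, X.pair_res,
    X.pair_gys, X.lefC_pow_apply, X.lefC_pow_apply, X.gysC_apply, X.resC_succ, J_pow hJ, J_pow hJ,
    hJ.gys, hJ.res, gys_pow', res_pow']

/-- Two elements of `P` with opposite signs cannot cancel. -/
lemma cancel (hP : IsPositive P) {e A B : Ω} (hA : A ≠ 0 → e * A ∈ P)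
    (hB : B ≠ 0 → -e * B ∈ P) (h : A - B = 0) : A = 0 ∧ B = 0 := by
  by_cases hA0 : A = 0
  · exact ⟨hA0, by rw [hA0, zero_sub, neg_eq_zero] at h; exact h⟩
  · by_cases hB0 : B = 0
    · rw [hB0, sub_zero] at h
      exact ⟨h, hB0⟩
    · exfalso
      have h1 := hP.add _ (hA hA0) _ (hB hB0)
      rw [show e * A + -e * B = e * (A - B) by ring, h, mul_zero] at h1
      exact hP.zero h1

variable (hP : IsPositive P) (hJ : IsConjugation X.toStrataData J)

lemma sign_step (m : ℤ) : (-1 : Ω) ^ ((m - 2) / 2) = -(-1 : Ω) ^ (m / 2) := by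
  rw [show (m - 2) / 2 = m / 2 - 1 by omega, zpow_sub_one₀ (by norm_num : (-1 : Ω) ≠ 0)]
  norm_num

include hP in
/-- A primitive class with zero square vanishes. -/
lemma eq_zero_of_sq {a s : ℕ} {m : ℤ} (hs : (s : ℤ) = ((n : ℤ) - a) - m)
    (hd : IsDefinite (X.gr a) ((n : ℤ) - a) (X.pair a) (X.lef a) (J a) P m) {x : X.H a}
    (hx : x ∈ X.gr a m) (hx0 : (X.lef a ^ (s + 1)) x = 0)
    (h : X.pair a x ((X.lef a ^ s) (J a x)) = 0) : x = 0 := by
  by_contra hne
  have h1 := hd s x hs hx hx0 hne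
  have h2 : ev (X.pair a) x (pw (X.lef a) s (J a x)) = 0 := h
  rw [h2, mul_zero] at h1
  exact hP.zero h1

variable (X) in
/-- The class `v` with `L ^ (m + 1) v = L ^ m (res x)`. -/
lemma exists_lift (i m : ℕ) : ∃ V : (Zp X.diff X.lefC X.tot i m) →ₗ[Ω] X.C,
    (∀ x, V x ∈ X.tot (-i - 1) (-m - 1)) ∧
      ∀ x, (X.lefC ^ (m + 1)) (V x) = (X.lefC ^ m) (X.resC x.1) := by
  have hmem : ∀ x ∈ X.tot (-i - 1) (-m - 1), (X.lefC ^ (m + 1)) x ∈ X.tot (-i - 1) (m + 1) := by
    intro x hx
    have : ∀ s : ℕ, (X.lefC ^ s) x ∈ X.E₁ (-i - 1) ((n : ℤ) + (-m - 1) - (-i - 1) + 2 * s) := by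
      intro s
      induction s with
      | zero =>
        rw [pow_zero, Module.End.one_apply]
        exact X.mem_E₁_cast rfl (by push_cast; ring) hx
      | succ s ih =>
        rw [pow_succ', Module.End.mul_apply]
        exact X.mem_E₁_cast rfl (by push_cast; ring) (X.lefC_mem ih)
    exact X.mem_E₁_cast rfl (by push_cast; ring) (this (m + 1))
  let T : X.tot (-i - 1) (-m - 1) →ₗ[Ω] X.tot (-i - 1) (m + 1) :=
    (X.lefC ^ (m + 1)).restrict hmem
  have hT : Function.Bijective T := by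
    constructor
    · rw [← LinearMap.ker_eq_bot, LinearMap.ker_eq_bot']
      intro x hx
      apply Subtype.ext
      apply X.lefC_inj (r := -i - 1) (m + 1) (X.mem_E₁_cast rfl (by push_cast; ring) x.2)
      exact congrArg Subtype.val hx
    · intro y
      obtain ⟨x, hx, hxy⟩ := X.lefC_surj (r := -i - 1) (m + 1) (y := y.1)
        (X.mem_E₁_cast rfl (by push_cast; ring) y.2)
      exact ⟨⟨x, X.mem_E₁_cast rfl (by push_cast; ring) hx⟩, Subtype.ext hxy⟩
  let e := LinearEquiv.ofBijective T hT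
  let g : (Zp X.diff X.lefC X.tot i m) →ₗ[Ω] X.C :=
    (X.lefC ^ m) ∘ₗ X.resC ∘ₗ (Zp X.diff X.lefC X.tot i m).subtype
  have hg : ∀ x, g x ∈ X.tot (-i - 1) (m + 1) := by
    intro x
    have h1 : x.1 ∈ X.E₁ (-i) (n + -m - -i) := x.2.1.1.1
    have h2 := resC_mem_neg X (by positivity) h1
    have h3 : ∀ s : ℕ, (X.lefC ^ s) (X.resC x.1) ∈
        X.E₁ (-i - 1) ((n : ℤ) + -m - -i + 2 + 2 * s) := by
      intro s
      induction s with
      | zero => simpa using h2
      | succ s ih =>
        rw [pow_succ', Module.End.mul_apply]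
        exact X.mem_E₁_cast rfl (by push_cast; ring) (X.lefC_mem ih)
    exact X.mem_E₁_cast rfl (by push_cast; ring) (h3 m)
  refine ⟨(X.tot (-i - 1) (-m - 1)).subtype ∘ₗ e.symm.toLinearMap ∘ₗ g.codRestrict _ hg,
    fun x => Subtype.coe_prop _, fun x => ?_⟩
  have h1 := congrArg Subtype.val (e.apply_symm_apply (g.codRestrict _ hg x))
  exact h1

include hP hJ in
/-- The key step: the critical space consists of coboundaries. -/
theorem zp_le (hL : LefComplex X.diff X.lefC X.tot) (i m : ℕ) (hi : 1 ≤ i)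
    (hpos : ∀ (a : ℕ) (m' : ℤ), 1 ≤ a → a + m' ≤ (n : ℤ) - m →
      IsDefinite (X.gr a) ((n : ℤ) - a) (X.pair a) (X.lef a) (J a) P m') :
    Zp X.diff X.lefC X.tot i m ≤ Bd X.diff X.tot (-i) (-m) := by
  obtain ⟨V, hV, hVL⟩ := exists_lift X i m
  have hi' : (1 : ℤ) ≤ i := by exact_mod_cast hi
  -- facts on the elements of the critical space
  have hx1 : ∀ x : Zp X.diff X.lefC X.tot i m, x.1 ∈ X.E₁ (-i) (n + -m - -i) := fun x => x.2.1.1.1
  have hfull : ∀ x : Zp X.diff X.lefC X.tot i m, X.resC x.1 + X.gysC x.1 = 0 := fun x =>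
    full_of_diff X hi' (hx1 x) x.2.1.1.2
  have hgr : ∀ x : Zp X.diff X.lefC X.tot i m, X.gysC (X.resC x.1) = 0 := fun x =>
    gys_res_zero X hi' (hx1 x) (hfull x)
  have hrr : ∀ x : X.C, X.resC (X.resC x) = 0 := by
    intro x
    funext b
    cases b with
    | zero => rfl
    | succ b =>
      rw [X.resC_succ]
      cases b with
      | zero => rw [X.resC_zero, map_zero]; rfl
      | succ b => rw [X.resC_succ, X.res_res]; rfl
  have hbd : ∀ x, X.diff (-i - 1) (V x) ∈ Bd X.diff X.tot (-i) (-m) := fun x =>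
    ⟨V x, hV x, rfl⟩
  have hzp : ∀ x, X.diff (-i - 1) (V x) ∈ Zp X.diff X.lefC X.tot i m := by
    intro x
    refine ⟨⟨hL.bd_le _ _ (hbd x), hL.bd_neg_le i hi' _ (hbd x)⟩, ?_⟩
    rw [SetLike.mem_coe, LinearMap.mem_ker, ← hL.dLpow, hVL, hL.dLpow, X.diff_apply, hrr,
      hgr, add_zero, map_zero, map_zero]
  let M : (Zp X.diff X.lefC X.tot i m) →ₗ[Ω] (Zp X.diff X.lefC X.tot i m) :=
    (X.diff (-i - 1) ∘ₗ V).codRestrict _ hzp
  have hM : ∀ x, (M x).1 = X.diff (-i - 1) (V x) := fun x => rfl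
  -- injectivity
  have hinj : Function.Injective M := by
    rw [← LinearMap.ker_eq_bot, LinearMap.ker_eq_bot']
    intro x hx
    have hx0 : X.diff (-i - 1) (V x) = 0 := congrArg Subtype.val hx
    have hVE : V x ∈ X.E₁ (-((i : ℤ) + 1)) (n + (-m - 1) - (-i - 1)) :=
      X.mem_E₁_cast (by ring) (by ring) (hV x)
    have hVfull : X.resC (V x) + X.gysC (V x) = 0 := by
      apply full_of_diff X (i := (i : ℤ) + 1) (by omega) hVE
      rw [show -((i : ℤ) + 1) = -i - 1 by ring]
      exact hx0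
    -- the quadratic form
    let Q : ℕ → Ω := fun b => X.pair b (V x b) ((X.lef b ^ (m + 1)) (J b (V x b)))
    have hLV : ∀ b, (X.lef b ^ (m + 1)) (V x b) = (X.lefC ^ m) (X.resC x.1) b := by
      intro b
      rw [← X.lefC_pow_apply, hVL]
    have hLV' : ∀ b, (X.lefC ^ m) (X.gysC x.1) b = -(X.lef b ^ (m + 1)) (V x b) := by
      intro b
      have h1 : X.gysC x.1 = -X.resC x.1 := by
        rw [eq_neg_iff_add_eq_zero, add_comm]
        exact hfull x
      rw [h1, map_neg, Pi.neg_apply, hLV]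
    have hrel : ∀ a : ℕ, Q (a + 2) - Q a = 0 := by
      intro a
      have h1 := pair_full hJ a m x.1 (V x)
      rw [hVfull, Pi.zero_apply, map_zero, LinearMap.zero_apply, hLV', ← hLV, map_neg, map_neg,
        J_pow hJ, J_pow hJ] at h1
      show X.pair (a + 2) _ _ - X.pair a _ _ = 0
      rw [h1]
      ring
    -- primitivity
    have hprim : ∀ b, (X.lef b ^ (m + 1 + 1)) (V x b) = 0 := by
      intro b
      rw [pow_succ', Module.End.mul_apply, ← X.lefC_pow_apply, hVL, ← X.lefC_apply,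
        ← Module.End.mul_apply X.lefC, ← pow_succ', pow_resC,
        show (X.lefC ^ (m + 1)) x.1 = 0 from x.2.2, map_zero]
      rfl
    have hdeg : ∀ b, V x b ∈ X.gr b ((n : ℤ) - m - 1 - b) := by
      intro b
      have := (hVE b).1
      rwa [show (n : ℤ) + (-m - 1) - (-i - 1) + -((i : ℤ) + 1) - b = n - m - 1 - b by ring]
        at this
    have hcol : ∀ b : ℕ, b < i + 1 → V x b = 0 := by
      intro b hb
      apply X.eq_zero_of_not_col hVE
      rintro ⟨h1, -⟩
      rw [abs_neg, abs_of_nonneg (by omega)] at h1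
      omega
    have hQpos : ∀ b : ℕ, Q b ≠ 0 → (-1 : Ω) ^ (((n : ℤ) - m - 1 - b) / 2) * Q b ∈ P := by
      intro b hQ
      have hne : V x b ≠ 0 := by
        intro h0
        apply hQ
        show X.pair b _ _ = 0
        rw [h0, map_zero, LinearMap.zero_apply]
      have hb : i + 1 ≤ b := by
        by_contra hcon
        exact hne (hcol b (by omega))
      exact hpos b ((n : ℤ) - m - 1 - b) (by omega) (by omega) (m + 1) (V x b)
        (by push_cast; ring) (hdeg b) (hprim b) hne
    have hQ0 : ∀ b : ℕ, Q b = 0 := by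
      intro b
      have h1 := hrel b
      have h2 : (-1 : Ω) ^ (((n : ℤ) - m - 1 - ((b + 2 : ℕ) : ℤ)) / 2) =
          -(-1 : Ω) ^ (((n : ℤ) - m - 1 - b) / 2) := by
        rw [← sign_step]
        congr 2
        push_cast
        ring
      refine (cancel hP (e := (-1 : Ω) ^ (((n : ℤ) - m - 1 - b) / 2)) (A := Q b) (B := Q (b + 2))
        (hQpos b) (fun h => ?_) ?_).1
      · rw [← h2]
        exact hQpos (b + 2) h
      · rw [← neg_eq_zero, neg_sub]
        exact h1
    have hV0 : V x = 0 := by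
      funext b
      by_cases hb : b < i + 1
      · exact hcol b hb
      · exact eq_zero_of_sq hP (s := m + 1) (m := (n : ℤ) - m - 1 - b) (by push_cast; ring)
          (hpos b _ (by omega) (by omega)) (hdeg b) (hprim b) (hQ0 b)
    -- now `L ^ m (res x) = 0`
    have hr0 : (X.lefC ^ m) (X.resC x.1) = 0 := by rw [← hVL, hV0, map_zero]
    have hg0 : (X.lefC ^ m) (X.gysC x.1) = 0 := by
      funext b
      rw [hLV', hV0]
      show -(X.lef b ^ (m + 1)) (0 : X.H b) = 0
      rw [map_zero, neg_zero]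
    obtain ⟨y, hy, hyx⟩ := x.2.1.2
    apply Subtype.ext
    funext a
    by_cases ha : InColumn (i : ℤ) a
    · have ha1 : i ≤ a := by
        have := ha.1
        rw [abs_of_nonneg (by positivity)] at this
        exact_mod_cast this
      obtain ⟨a', rfl⟩ : ∃ a', a = a' + 1 := ⟨a - 1, by omega⟩
      have hxa : x.1 (a' + 1) = (X.resC y + X.gysC y) (a' + 1) := by
        rw [← hyx, X.diff_apply, show (i : ℤ) - 1 + 1 = i by ring, X.cut_of ha]
      have hda : x.1 (a' + 1) ∈ X.gr (a' + 1) ((n : ℤ) - m - ((a' + 1 : ℕ) : ℤ)) := by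
        have := (hx1 x (a' + 1)).1
        rwa [show (n : ℤ) + -m - -i + -i - ((a' + 1 : ℕ) : ℤ) = n - m - ((a' + 1 : ℕ) : ℤ) by
          ring] at this
      have hpa : (X.lef (a' + 1) ^ (m + 1)) (x.1 (a' + 1)) = 0 := by
        rw [← X.lefC_pow_apply, show (X.lefC ^ (m + 1)) x.1 = 0 from x.2.2]
        rfl
      apply eq_zero_of_sq hP (J := J) (s := m) (m := (n : ℤ) - m - ((a' + 1 : ℕ) : ℤ)) (by ring)
        (hpos _ _ (by omega) (by omega)) hda hpa
      have h1 := pair_full hJ a' m x.1 y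
      rw [hr0, hg0, Pi.zero_apply, Pi.zero_apply, map_zero, map_zero, map_zero, map_zero,
        add_zero, ← hxa] at h1
      exact h1
    · have h1 := hL.zc_neg_le i hi' _ x.2.1.1
      exact X.eq_zero_of_not_col h1.1 ha
  have hsurj := LinearMap.injective_iff_surjective.1 hinj
  intro x hx
  obtain ⟨x', hx'⟩ := hsurj ⟨x, hx⟩
  have h1 := congrArg Subtype.val hx'
  rw [hM] at h1
  have h2 := hbd x'
  rw [h1] at h2
  exact h2

include hP hJ in
/-- **The theorem for polarised strata.** -/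
theorem nInj_pol (hL : LefComplex X.diff X.lefC X.tot) (M : ℕ)
    (hpos : ∀ (a : ℕ) (m' : ℤ), 1 ≤ a → a + m' ≤ (n : ℤ) - M →
      IsDefinite (X.gr a) ((n : ℤ) - a) (X.pair a) (X.lef a) (J a) P m') (i : ℕ) (hi : 1 ≤ i) :
    ∀ m : ℕ, M ≤ m → NInj X.diff X.tot i (-m) := by
  have hi' : (1 : ℤ) ≤ i := by exact_mod_cast hi
  have key : ∀ N m : ℕ, n < m + N → M ≤ m → NInj X.diff X.tot i (-m) := by
    intro N
    induction N with
    | zero =>
      intro m hm _
      unfold NInj
      have h0 : X.tot (-i) (-m) = ⊥ := X.tot_bdd _ _ (Or.inr (by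
        rw [abs_neg, Nat.abs_cast]
        exact_mod_cast hm))
      have h1 : Zc X.diff X.tot (-i) (-m) = ⊥ := by
        unfold Zc
        rw [h0, bot_inf_eq]
      rw [h1, bot_inf_eq]
      exact bot_le
    | succ N ih =>
      intro m hm hMm
      have h1 := hL.nInj_pos i hi' (m + 2) (ih (m + 2) (by omega) (by omega))
      intro x hx
      obtain ⟨z, hz, hzx⟩ := hL.lred' i hi' m (by
        rwa [show (((m + 2 : ℕ) : ℤ)) = (m : ℤ) + 2 by push_cast; ring] at h1) hx
      have h2 := zp_le hP hJ hL i m hi (fun a m' ha ham => hpos a m' ha (by omega)) hzx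
      have := Submodule.add_mem _ hz h2
      simpa using this
  intro m hm
  exact key (n + 1) m (by omega) hm

end Pos

section Final

variable {X : SpecialFibre.{u, v} Ω Γ n q}

theorem nInj_nSurj_pol (hX : X.toStrataData.HasHardLefschetz n) {k : ℕ}
    (hpol : IsPolarised X.toStrataData n (min (k : ℤ) (2 * n - k))) (i : ℕ) (hi : 1 ≤ i) :
    NInj X.diff X.tot i ((k : ℤ) - n) ∧ NSurj X.diff X.tot i ((k : ℤ) - n) := by
  obtain ⟨P, J, hP, hJ, hpos⟩ := hpol
  have hL := lefComplex_of X hX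
  have hi' : (1 : ℤ) ≤ i := by exact_mod_cast hi
  obtain ⟨M, hM⟩ := Int.eq_ofNat_of_zero_le (abs_nonneg ((k : ℤ) - n))
  have hMn : (n : ℤ) - M = min (k : ℤ) (2 * n - k) := by
    rcases le_total (0 : ℤ) ((k : ℤ) - n) with h | h
    · rw [abs_of_nonneg h] at hM
      rw [min_eq_right (by omega)]
      omega
    · rw [abs_of_nonpos h] at hM
      rw [min_eq_left (by omega)]
      omega
  have h1 : NInj X.diff X.tot i (-M) :=
    nInj_pol hP hJ hL M (fun a m' ha ham => hpos a m' ha (by omega)) i hi M le_rfl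
  have h2 : NInj X.diff X.tot i ((k : ℤ) - n) := by
    rcases le_total (0 : ℤ) ((k : ℤ) - n) with h | h
    · rw [abs_of_nonneg h] at hM
      rw [hM]
      exact hL.nInj_pos i hi' M h1
    · rw [abs_of_nonpos h] at hM
      rwa [show (k : ℤ) - n = -M by omega]
  exact ⟨h2, (X.lefDual.good_of_inj hL hL i hi' _ h2 h2).surj⟩

end Final

end Pool.Agent.H849.SEC
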