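import Pool.Graph.R_seed8.Y143.Sym
import Pool.Graph.R_seed8.Y143.Pure
import Pool.Agent.H849.SEC.Defs

/-!
# The virtual section: the special fibre modulo the kernel of `L ^ c`
-/

set_option autoImplicit false

namespace Pool.Agent.H849.SEC

open Module Pool.Agent.Y143

universe u v

section Quot

variable {Ω : Type u} [Field Ω] {H : Type v} [AddCommGroup H] [Module Ω H]

/-- The map `H / ker T → H` induced by `T`. -/
noncomputable def emb (T : Module.End Ω H) : (H ⧸ LinearMap.ker T) →ₗ[Ω] H :=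
  (LinearMap.ker T).liftQ T le_rfl

@[simp] lemma emb_mk (T : Module.End Ω H) (x : H) :
    emb T ((LinearMap.ker T).mkQ x) = T x := by
  unfold emb
  simp

lemma emb_inj (T : Module.End Ω H) {k : H ⧸ LinearMap.ker T} (h : emb T k = 0) : k = 0 := by
  obtain ⟨x, rfl⟩ := (LinearMap.ker T).mkQ_surjective k
  rw [emb_mk] at h
  simpa using h

/-- The form `B(x, T y)` on `H / ker T`. -/
noncomputable def quotForm (T : Module.End Ω H) (B : H →ₗ[Ω] H →ₗ[Ω] Ω)
    (h : ∀ x ∈ LinearMap.ker T, B.compl₂ (emb T) x = 0) :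
    (H ⧸ LinearMap.ker T) →ₗ[Ω] (H ⧸ LinearMap.ker T) →ₗ[Ω] Ω :=
  (LinearMap.ker T).liftQ (B.compl₂ (emb T)) h

end Quot

variable {Ω : Type u} [Field Ω] [CharZero Ω] {Γ : Type} {n q c : ℕ}

section Data

variable (X : SpecialFibre.{u, v} Ω Γ n q) (c)

/-- The kernel of `L ^ c` on the cohomology of the stratum `Y^(a+1)`. -/
def kerL (a : ℕ) : Submodule Ω (X.H a) := LinearMap.ker (X.lef a ^ c)

lemma lef_pow_comm (a : ℕ) (x : X.H a) :
    (X.lef a ^ c) (X.lef a x) = X.lef a ((X.lef a ^ c) x) := by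
  rw [← Module.End.mul_apply, ← pow_succ, pow_succ', Module.End.mul_apply]

lemma res_pow (a : ℕ) (x : X.H a) :
    X.res a ((X.lef a ^ c) x) = (X.lef (a + 1) ^ c) (X.res a x) := by
  induction c with
  | zero => rfl
  | succ c ih => rw [pow_succ', Module.End.mul_apply, X.res_lef, ih, pow_succ',
      Module.End.mul_apply]

lemma gys_pow (a : ℕ) (x : X.H (a + 1)) :
    X.gys a ((X.lef (a + 1) ^ c) x) = (X.lef a ^ c) (X.gys a x) := by
  induction c with
  | zero => rfl
  | succ c ih => rw [pow_succ', Module.End.mul_apply, X.gys_lef, ih, pow_succ',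
      Module.End.mul_apply]

lemma act_pow (a : ℕ) (g : Γ) (x : X.H a) :
    X.act a g ((X.lef a ^ c) x) = (X.cyc g : Ω) ^ c • (X.lef a ^ c) (X.act a g x) := by
  induction c with
  | zero => simp
  | succ c ih => rw [pow_succ', Module.End.mul_apply, X.lef_act, ih, map_smul, smul_smul,
      ← pow_succ', ← Module.End.mul_apply]

lemma pair_pow (a : ℕ) (x y : X.H a) :
    X.pair a ((X.lef a ^ c) x) y = X.pair a x ((X.lef a ^ c) y) := by
  induction c generalizing y with
  | zero => rfl
  | succ c ih => rw [pow_succ', Module.End.mul_apply, X.lef_pair, ih, ← Module.End.mul_apply,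
      ← pow_succ, pow_succ']

lemma gr_pow (a : ℕ) (m : ℤ) (x : X.H a) (h : x ∈ X.gr a m) :
    (X.lef a ^ c) x ∈ X.gr a (m + 2 * c) := by
  induction c with
  | zero => simpa using h
  | succ c ih =>
    rw [pow_succ', Module.End.mul_apply]
    have := X.lef_gr a _ _ ih
    rwa [show m + 2 * (c : ℤ) + 2 = m + 2 * ((c + 1 : ℕ) : ℤ) by push_cast; ring] at this

end Data

/-- The strata data of the virtual section of codimension `c`: the cohomology of the strata modulo the
kernel of `L ^ c`. -/
noncomputable def virtData (X : SpecialFibre.{u, v} Ω Γ n q) (c : ℕ) : StrataData.{u, v} Ω Γ where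
  H a := X.H a ⧸ LinearMap.ker (X.lef a ^ c)
  gr a m := (X.gr a m).map (LinearMap.ker (X.lef a ^ c)).mkQ
  pair a := quotForm (X.lef a ^ c) (X.pair a) (by
    intro x hx
    apply LinearMap.ext
    intro k
    obtain ⟨y, rfl⟩ := (LinearMap.ker (X.lef a ^ c)).mkQ_surjective k
    rw [LinearMap.compl₂_apply, emb_mk, ← pair_pow, LinearMap.mem_ker.1 hx]
    simp)
  lef a := (LinearMap.ker (X.lef a ^ c)).mapQ _ (X.lef a) (by
    intro x hx
    rw [Submodule.mem_comap, LinearMap.mem_ker, lef_pow_comm, LinearMap.mem_ker.1 hx, map_zero])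
  res a := Submodule.mapQ _ _ (X.res a) (by
    intro x hx
    rw [Submodule.mem_comap, LinearMap.mem_ker, ← res_pow, LinearMap.mem_ker.1 hx, map_zero])
  gys a := Submodule.mapQ _ _ (X.gys a) (by
    intro x hx
    rw [Submodule.mem_comap, LinearMap.mem_ker, ← gys_pow, LinearMap.mem_ker.1 hx, map_zero])
  act a g := Submodule.mapQ _ _ (X.act a g) (by
    intro x hx
    rw [Submodule.mem_comap, LinearMap.mem_ker]
    have h := act_pow c X a g x
    rw [LinearMap.mem_ker.1 hx, map_zero] at h
    exact (smul_eq_zero.1 h.symm).resolve_left (pow_ne_zero _ (Units.ne_zero _)))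
  cyc := X.cyc
  tr := X.tr
  frob := X.frob

section

variable (X : SpecialFibre.{u, v} Ω Γ n q) (c : ℕ)

/-- The projection to the virtual section. -/
noncomputable def mk (a : ℕ) : X.H a →ₗ[Ω] (virtData X c).H a :=
  (LinearMap.ker (X.lef a ^ c)).mkQ

/-- The embedding given by `L ^ c`. -/
noncomputable def em (a : ℕ) : (virtData X c).H a →ₗ[Ω] X.H a := emb (X.lef a ^ c)

lemma mk_surj (a : ℕ) (k : (virtData X c).H a) : ∃ x, mk X c a x = k :=
  (LinearMap.ker (X.lef a ^ c)).mkQ_surjective k

lemma em_mk (a : ℕ) (x : X.H a) : em X c a (mk X c a x) = (X.lef a ^ c) x :=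
  emb_mk _ _

lemma em_inj (a : ℕ) {k : (virtData X c).H a} (h : em X c a k = 0) : k = 0 :=
  emb_inj _ h

lemma mk_eq_zero (a : ℕ) {x : X.H a} : mk X c a x = 0 ↔ (X.lef a ^ c) x = 0 := by
  rw [← em_mk]
  exact ⟨fun h => by rw [h, map_zero], fun h => em_inj X c a h⟩

lemma mem_gr (a : ℕ) (m : ℤ) {k : (virtData X c).H a} :
    k ∈ (virtData X c).gr a m ↔ ∃ x ∈ X.gr a m, mk X c a x = k := Iff.rfl

lemma mk_gr (a : ℕ) (m : ℤ) {x : X.H a} (h : x ∈ X.gr a m) : mk X c a x ∈ (virtData X c).gr a m :=
  ⟨x, h, rfl⟩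

lemma pair_mk (a : ℕ) (x y : X.H a) :
    (virtData X c).pair a (mk X c a x) (mk X c a y) = X.pair a x ((X.lef a ^ c) y) := by
  show X.pair a x (em X c a (mk X c a y)) = _
  rw [em_mk]

lemma lef_mk (a : ℕ) (x : X.H a) :
    (virtData X c).lef a (mk X c a x) = mk X c a (X.lef a x) := rfl

lemma res_mk (a : ℕ) (x : X.H a) :
    (virtData X c).res a (mk X c a x) = mk X c (a + 1) (X.res a x) := rfl

lemma gys_mk (a : ℕ) (x : X.H (a + 1)) :
    (virtData X c).gys a (mk X c (a + 1) x) = mk X c a (X.gys a x) := rfl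

lemma act_mk (a : ℕ) (g : Γ) (x : X.H a) :
    (virtData X c).act a g (mk X c a x) = mk X c a (X.act a g x) := rfl

lemma lef_pow_mk (s a : ℕ) (x : X.H a) :
    ((virtData X c).lef a ^ s) (mk X c a x) = mk X c a ((X.lef a ^ s) x) := by
  induction s with
  | zero => rfl
  | succ s ih => rw [pow_succ', Module.End.mul_apply, ih, lef_mk, pow_succ', Module.End.mul_apply]

end

section Dual

variable (X : SpecialFibre.{u, v} Ω Γ (n + c) q)

lemma em_gr {a : ℕ} {m : ℤ} {k : (virtData X c).H a} (h : k ∈ (virtData X c).gr a m) :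
    em X c a k ∈ X.gr a (m + 2 * c) := by
  obtain ⟨x, hx, rfl⟩ := (mem_gr X c a m).1 h
  rw [em_mk]
  exact gr_pow c X a m x hx

lemma virt_graded (a : ℕ) : IsGraded ((virtData X c).gr a) ((n : ℤ) - a) where
  finite := inferInstanceAs (Module.Finite Ω (X.H a ⧸ LinearMap.ker (X.lef a ^ c)))
  isInternal := by
    rw [DirectSum.isInternal_submodule_iff_iSupIndep_and_iSup_eq_top]
    constructor
    · intro m
      rw [Submodule.disjoint_def]
      intro k hk hk'
      apply em_inj X c a
      have h1 : em X c a k ∈ X.gr a (m + 2 * c) := em_gr X hk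
      have h2 : em X c a k ∈ ⨆ j, ⨆ (_ : j ≠ m + 2 * (c : ℤ)), X.gr a j := by
        have h3 : (⨆ j, ⨆ (_ : j ≠ m), (virtData X c).gr a j) ≤
            (⨆ j, ⨆ (_ : j ≠ m + 2 * (c : ℤ)), X.gr a j).comap (em X c a) := by
          apply iSup₂_le
          intro j hj k hk
          rw [Submodule.mem_comap]
          exact Submodule.mem_iSup_of_mem (j + 2 * c)
            (Submodule.mem_iSup_of_mem (by omega) (em_gr X hk))
        exact h3 hk'
      have h4 := (DirectSum.isInternal_submodule_iff_iSupIndep_and_iSup_eq_top _).1 (X.isInternal a)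
      exact (Submodule.disjoint_def.1 (h4.1 (m + 2 * c))) _ h1 h2
    · rw [eq_top_iff]
      rintro k -
      obtain ⟨x, rfl⟩ := mk_surj X c a k
      refine X.gr_induction (P := fun x => mk X c a x ∈ ⨆ m, (virtData X c).gr a m) (by simp)
        (fun x y hx hy => by rw [map_add]; exact Submodule.add_mem _ hx hy) (fun m x hx => ?_) x
      exact Submodule.mem_iSup_of_mem m (mk_gr X c a m hx)
  gr_eq_bot m hm := by
    rw [eq_bot_iff]
    intro k hk
    replace hk := (mem_gr X c a m).1 hk
    obtain ⟨x, hx, rfl⟩ := hk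
    rw [Submodule.mem_bot, mk_eq_zero]
    rcases hm with hm | hm
    · rw [X.gr_eq_bot a m (Or.inl hm), Submodule.mem_bot] at hx
      rw [hx, map_zero]
    · have h1 := gr_pow c X a m x hx
      rw [X.gr_eq_bot a _ (Or.inr (by push_cast; omega)), Submodule.mem_bot] at h1
      exact h1

lemma virt_poincare (a : ℕ) :
    IsPoincare ((virtData X c).gr a) ((n : ℤ) - a) ((virtData X c).pair a) where
  pair_gr m m' x y hx hy hmm := by
    replace hx := (mem_gr X c a m).1 hx
    obtain ⟨x, hx, rfl⟩ := hx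
    replace hy := (mem_gr X c a m').1 hy
    obtain ⟨y, hy, rfl⟩ := hy
    show (virtData X c).pair a _ _ = 0
    rw [pair_mk]
    exact X.pair_gr a _ _ _ _ hx (gr_pow c X a m' y hy) (by push_cast; omega)
  pair_nondeg x hx := by
    obtain ⟨x, rfl⟩ := mk_surj X c a x
    rw [mk_eq_zero]
    apply X.pair_nondeg
    intro y
    have := hx (mk X c a y)
    rw [pair_pow]
    rw [← pair_mk]
    exact this
  pair_symm m x y hx := by
    replace hx := (mem_gr X c a m).1 hx
    obtain ⟨x, hx, rfl⟩ := hx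
    obtain ⟨y, rfl⟩ := mk_surj X c a y
    show (virtData X c).pair a _ _ = _ * (virtData X c).pair a _ _
    rw [pair_mk, pair_mk, ← pair_pow]
    exact X.pair_symm a m x _ hx

lemma virt_lefschetz (a : ℕ) : IsLefschetz ((virtData X c).gr a) ((n : ℤ) - a)
    ((virtData X c).pair a) ((virtData X c).lef a) where
  lef_gr m x hx := by
    replace hx := (mem_gr X c a m).1 hx
    obtain ⟨x, hx, rfl⟩ := hx
    rw [lef_mk]
    exact mk_gr X c a _ (X.lef_gr a m x hx)
  lef_pair x y := by
    obtain ⟨x, rfl⟩ := mk_surj X c a x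
    obtain ⟨y, rfl⟩ := mk_surj X c a y
    show (virtData X c).pair a _ _ = (virtData X c).pair a _ _
    rw [lef_mk, lef_mk, pair_mk, pair_mk, X.lef_pair, lef_pow_comm]
  lef_inj s x hx h := by
    replace hx := (mem_gr X c a _).1 hx
    obtain ⟨x, hx, rfl⟩ := hx
    have h' : ((virtData X c).lef a ^ s) (mk X c a x) = 0 := h
    rw [lef_pow_mk, mk_eq_zero, ← Module.End.mul_apply, ← pow_add] at h'
    have h0 : x = 0 := by
      apply X.lef_inj a (c + s) x _ h'
      rwa [show (((n + c : ℕ) : ℤ)) - a - ((c + s : ℕ) : ℤ) = n - a - s by push_cast; ring]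
    rw [h0, map_zero]
  lef_surj s y hy := by
    replace hy := (mem_gr X c a _).1 hy
    obtain ⟨y, hy, rfl⟩ := hy
    obtain ⟨x, hx, hxy⟩ := X.lef_surj a (c + s) ((X.lef a ^ c) y) (by
      have := gr_pow c X a _ y hy
      rwa [show (((n + c : ℕ) : ℤ)) - a + ((c + s : ℕ) : ℤ) = n - a + s + 2 * c by
        push_cast; ring])
    refine ⟨mk X c a x, mk_gr X c a _ (by
      rwa [show (((n + c : ℕ) : ℤ)) - a - ((c + s : ℕ) : ℤ) = n - a - s by
        push_cast; ring] at hx), ?_⟩
    show ((virtData X c).lef a ^ s) (mk X c a x) = mk X c a y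
    rw [lef_pow_mk, ← sub_eq_zero, ← map_sub, mk_eq_zero, map_sub, ← hxy, pow_add,
      Module.End.mul_apply, sub_self]

lemma virt_operators (a : ℕ) : IsOperators ((virtData X c).gr a) ((n : ℤ) - a)
    ((virtData X c).pair a) ((virtData X c).lef a) ((virtData X c).act a) (virtData X c).cyc
    (virtData X c).tr where
  act_comm g h x := by
    obtain ⟨x, rfl⟩ := mk_surj X c a x
    rw [act_mk, act_mk, act_mk, act_mk, X.act_comm]
  act_gr m g x hx := by
    replace hx := (mem_gr X c a m).1 hx
    obtain ⟨x, hx, rfl⟩ := hx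
    rw [act_mk]
    exact mk_gr X c a m (X.act_gr a m g x hx)
  act_pair g x y := by
    obtain ⟨x, rfl⟩ := mk_surj X c a x
    obtain ⟨y, rfl⟩ := mk_surj X c a y
    show (virtData X c).pair a _ _ = ((X.cyc g ^ ((n : ℤ) - a) : Ωˣ) : Ω) *
      (virtData X c).pair a _ ((virtData X c).act a (X.tr g) _)
    rw [act_mk, act_mk, pair_mk, pair_mk, X.act_pair, act_pow, map_smul, smul_eq_mul, X.cyc_tr,
      ← mul_assoc, ← Units.val_pow_eq_pow_val, ← Units.val_mul]
    congr 2
    rw [inv_pow, ← zpow_natCast, ← zpow_neg, ← zpow_add]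
    congr 1
    push_cast
    ring
  lef_act g x := by
    obtain ⟨x, rfl⟩ := mk_surj X c a x
    show (virtData X c).act a g ((virtData X c).lef a _) = (X.cyc g : Ω) • _
    rw [lef_mk, act_mk, act_mk, lef_mk, X.lef_act, map_smul]

lemma virt_frobenius (a : ℕ) : IsFrobenius ((virtData X c).gr a) q
    ((virtData X c).act a (virtData X c).frob)
    ((virtData X c).act a ((virtData X c).tr (virtData X c).frob)) where
  frob_inv x := by
    obtain ⟨x, rfl⟩ := mk_surj X c a x
    show (virtData X c).act a (X.tr X.frob) ((virtData X c).act a X.frob _) = _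
    rw [act_mk, act_mk, X.frob_inv]
  weil m α x hx hx0 h := by
    replace hx := (mem_gr X c a m).1 hx
    obtain ⟨x, hx, rfl⟩ := hx
    have h' : (virtData X c).act a X.frob (mk X c a x) = α • mk X c a x := h
    have h1 := congrArg (em X c a) h'
    rw [act_mk, map_smul, em_mk, em_mk] at h1
    have h2 := act_pow c X a X.frob x
    rw [h1, X.cyc_frob, smul_smul] at h2
    have h3 : (X.lef a ^ c) x ≠ 0 := fun h0 => hx0 ((mk_eq_zero X c a).2 h0)
    have h4 := X.weil a _ _ _ (gr_pow c X a m x hx) h3 h2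
    have h5 := h4.twist X.q_ne (-(c : ℤ))
    rw [← mul_assoc, zpow_neg, zpow_natCast,
      inv_mul_cancel₀ (pow_ne_zero _ (Nat.cast_ne_zero.2 X.q_ne)), one_mul] at h5
    rwa [show m + 2 * (c : ℤ) + 2 * -(c : ℤ) = m by ring] at h5

/-- The virtual section of codimension `c` of a special fibre. -/
noncomputable def virt : SpecialFibre.{u, v} Ω Γ n q where
  toStrataData := virtData X c
  duality a := ⟨virt_graded X a, virt_poincare X a, virt_lefschetz X a⟩
  operators := ⟨fun a => virt_operators X a, X.tr_tr, X.cyc_tr⟩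
  frobenius := ⟨fun a => virt_frobenius X a, X.cyc_frob⟩
  restriction :=
    { restriction := fun a =>
        { res_gr := fun m x hx => by
            replace hx := (mem_gr X c a m).1 hx
            obtain ⟨x, hx, rfl⟩ := hx
            rw [res_mk]
            exact mk_gr X c (a + 1) m (X.res_gr a m x hx)
          res_act := fun g x => by
            obtain ⟨x, rfl⟩ := mk_surj X c a x
            rw [res_mk, act_mk, act_mk, res_mk, X.res_act]
          res_lef := fun x => by
            obtain ⟨x, rfl⟩ := mk_surj X c a x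
            rw [lef_mk, res_mk, res_mk, lef_mk, X.res_lef] }
      transpose := fun a x y => by
        obtain ⟨x, rfl⟩ := mk_surj X c a x
        obtain ⟨y, rfl⟩ := mk_surj X c (a + 1) y
        show (virtData X c).pair (a + 1) _ _ = (virtData X c).pair a _ _
        rw [res_mk, gys_mk, pair_mk, pair_mk, X.pair_res, gys_pow]
      res_res := fun a x => by
        obtain ⟨x, rfl⟩ := mk_surj X c a x
        rw [res_mk, res_mk, X.res_res, map_zero]
      res_gys := fun a x => by
        obtain ⟨x, rfl⟩ := mk_surj X c (a + 1) x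
        rw [gys_mk, res_mk, res_mk, gys_mk, ← map_add, X.res_gys, map_zero] }

end Dual

end Pool.Agent.H849.SEC
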