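import Pool.Agent.H849.SEC.KPol
import Pool.Agent.H849.SEC.Ctrl

/-!
# Divisor classes and controlled characters on the virtual section
-/

set_option autoImplicit false

namespace Pool.Agent.H849.SEC

open Module Pool.Agent.Y143
open Pool.Agent.X302.MW (ControlledAt CoveredAt dualAt AbsentAt AlgebraicAt)

universe u v

variable {Ω : Type u} [Field Ω] [CharZero Ω] {Γ : Type} {n q c : ℕ}

variable {X : SpecialFibre.{u, v} Ω Γ (n + c) q} (A : DivisorClasses X)

/-- The image of a group of classes in the virtual section. -/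
noncomputable def imgV (X : SpecialFibre.{u, v} Ω Γ (n + c) q) (a : ℕ) (B : AddSubgroup (X.H a)) :
    AddSubgroup ((virt X).H a) := B.map (mv X a).toAddMonoidHom

lemma mem_imgV {a : ℕ} {B : AddSubgroup (X.H a)} {k : (virt X).H a} :
    k ∈ imgV X a B ↔ ∃ x ∈ B, mv X a x = k := Iff.rfl

lemma pair_pow_mv (a s : ℕ) (x y : X.H a) :
    (virt X).pair a (mv X a x) (((virt X).lef a ^ s) (mv X a y)) =
      X.pair a x ((X.lef a ^ (c + s)) y) := by
  rw [lef_pow_mv, pair_mv, pow_add, Module.End.mul_apply]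

lemma imgV_fg {a : ℕ} {B : AddSubgroup (X.H a)} (h : B.FG) : (imgV X a B).FG := by
  rw [AddSubgroup.fg_iff] at h ⊢
  obtain ⟨S, hS, hf⟩ := h
  refine ⟨(mv X a).toAddMonoidHom '' S, ?_, hf.image _⟩
  rw [← AddMonoidHom.map_closure, hS]
  rfl

/-- The classes of components and of divisors on the virtual section. -/
noncomputable def virtDiv : DivisorClasses (virt X) where
  A0 a := imgV X a (A.A0 a)
  A1 a := imgV X a (A.A1 a)
  components a :=
    { fg := imgV_fg (A.fg0 a)
      le := by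
        rintro _ ⟨x, hx, rfl⟩
        exact (mv_mem X a 0).2 ⟨x, A.A0_le a x hx, rfl⟩
      span := by
        intro k hk
        obtain ⟨x, hx, rfl⟩ := (mv_mem X a 0).1 hk
        have h1 := A.span_A0 a hx
        have h2 : mv X a x ∈ (Submodule.span Ω (A.A0 a : Set (X.H a))).map (mv X a) :=
          ⟨x, h1, rfl⟩
        rw [Submodule.map_span] at h2
        exact h2
      int := by
        rintro _ ⟨x, hx, rfl⟩ _ ⟨y, hy, rfl⟩
        rcases Nat.lt_or_ge n a with ha | ha
        · refine ⟨0, ?_⟩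
          rw [(virt X).eq_zero_of_lt ha (pw _ _ _)]
          show (virt X).pair a _ 0 = _
          rw [map_zero, Int.cast_zero]
        · obtain ⟨k, hk⟩ := A.int0 a x hx y hy
          refine ⟨k, ?_⟩
          rw [← hk, show n + c - a = c + (n - a) by omega]
          exact pair_pow_mv a (n - a) x y
      pos := by
        rintro _ ⟨x, hx, rfl⟩ hne
        rcases Nat.lt_or_ge n a with ha | ha
        · exact absurd ((virt X).eq_zero_of_lt ha _) hne
        · obtain ⟨k, hk, hk'⟩ := A.pos0 a x hx (fun h => hne (by rw [h]; exact map_zero _))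
          refine ⟨k, hk, ?_⟩
          rw [← hk', show n + c - a = c + (n - a) by omega]
          exact pair_pow_mv a (n - a) x x }
  divisors a :=
    { fg := imgV_fg (A.fg1 a)
      le := by
        rintro _ ⟨x, hx, rfl⟩
        exact (mv_mem X a 2).2 ⟨x, A.A1_le a x hx, rfl⟩
      int := by
        rintro _ ⟨x, hx, rfl⟩ _ ⟨y, hy, rfl⟩
        rcases Nat.lt_or_ge n (a + 2) with ha | ha
        · refine ⟨0, ?_⟩
          have e : n - a - 2 = 0 := by omega
          rw [e, Int.cast_zero]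
          show (virt X).pair a _ (((virt X).lef a ^ 0) _) = _
          rw [pow_zero, Module.End.one_apply]
          exact (virt X).pair_gr a 2 2 _ _ ((mv_mem X a 2).2 ⟨x, A.A1_le a x hx, rfl⟩)
            ((mv_mem X a 2).2 ⟨y, A.A1_le a y hy, rfl⟩) (by omega)
        · obtain ⟨k, hk⟩ := A.int1 a x hx y hy
          refine ⟨k, ?_⟩
          rw [← hk, show n + c - a - 2 = c + (n - a - 2) by omega]
          exact pair_pow_mv a (n - a - 2) x y
      hodge_index := by
        rintro _ ⟨x, hx, rfl⟩ h0 hne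
        have h0' : ((virt X).lef a ^ (n - a - 1)) (mv X a x) = 0 := h0
        rcases Nat.lt_or_ge n (a + 2) with ha | ha
        · exfalso
          apply hne
          have e : n - a - 1 = 0 := by omega
          rw [e, pow_zero, Module.End.one_apply] at h0'
          exact h0'
        · rw [lef_pow_mv, mv_eq_zero, ← Module.End.mul_apply, ← pow_add] at h0'
          obtain ⟨k, hk, hk'⟩ := A.hodge_index a x hx (by
            rw [show n + c - a - 1 = c + (n - a - 1) by omega]
            exact h0') (fun h => hne (by rw [h]; exact map_zero _))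
          refine ⟨k, hk, ?_⟩
          rw [← hk', show n + c - a - 2 = c + (n - a - 2) by omega]
          exact pair_pow_mv a (n - a - 2) x x }
  preserves a :=
    { res_A0 := by
        rintro _ ⟨x, hx, rfl⟩
        exact ⟨X.res a x, A.res_A0 a x hx, rfl⟩
      res_A1 := by
        rintro _ ⟨x, hx, rfl⟩
        exact ⟨X.res a x, A.res_A1 a x hx, rfl⟩
      gys_A0 := by
        rintro _ ⟨x, hx, rfl⟩
        exact ⟨X.gys a x, A.gys_A0 a x hx, rfl⟩
      lef_A0 := by
        rintro _ ⟨x, hx, rfl⟩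
        exact ⟨X.lef a x, A.lef_A0 a x hx, rfl⟩ }
  weil_one' a := by
    intro k hk h0
    obtain ⟨x, hx, rfl⟩ := (mv_mem X a 1).1 hk
    rcases Nat.lt_or_ge n (a + 2) with ha | ha
    · have h1 := (virt X).res_gr a 1 _ hk
      rw [(virt X).gr_eq_bot (a + 1) 1 (Or.inr (by push_cast; omega)), Submodule.mem_bot] at h1
      exact h1
    · rw [res_mv, A.weil_one a x hx, map_zero]
      intro y hy
      have h1 : (virt X).pair (a + 1) ((virt X).res a (mv X a x))
          (((virt X).lef (a + 1) ^ (n - a - 2)) ((virt X).res a (mv X a y))) = 0 :=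
        h0 (mv X a y) ((mv_mem X a 1).2 ⟨y, hy, rfl⟩)
      rw [res_mv, res_mv, pair_pow_mv] at h1
      rwa [show n + c - a - 2 = c + (n - a - 2) by omega]

/-! ### Characters -/

lemma mkC_act_sub (i : ℤ) (g : Γ) (α : Ω) (N : ℕ) (x : X.C) :
    (((virt X).actC i g - α • (1 : Module.End Ω (virt X).C)) ^ N) (mkC X x) =
      mkC X (((X.actC i g - α • (1 : Module.End Ω X.C)) ^ N) x) := by
  induction N with
  | zero => rfl
  | succ N ih =>
    rw [pow_succ', Module.End.mul_apply, ih, pow_succ', Module.End.mul_apply]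
    simp only [LinearMap.sub_apply, LinearMap.smul_apply, Module.End.one_apply]
    rw [mkC_act, map_sub, map_smul]

lemma act_sub_mem {i w : ℤ} (g : Γ) (α : Ω) (N : ℕ) {x : X.C} (hx : x ∈ X.E₁ i w) :
    ((X.actC i g - α • (1 : Module.End Ω X.C)) ^ N) x ∈ X.E₁ i w := by
  induction N with
  | zero => exact hx
  | succ N ih =>
    rw [pow_succ', Module.End.mul_apply]
    simp only [LinearMap.sub_apply, LinearMap.smul_apply, Module.End.one_apply]
    exact Submodule.sub_mem _ (X.actC_mem g ih) (Submodule.smul_mem _ _ ih)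

lemma wt_of_mkC {i w : ℤ} (h : i + w ≤ n) {χ : Γ → Ω} {x : X.C} (hx : x ∈ X.E₁ i w)
    (hW : mkC X x ∈ Wt ((virt X).actC i) χ) : x ∈ Wt (X.actC i) χ := by
  rw [mem_Wt] at hW ⊢
  intro g
  obtain ⟨N, hN⟩ := hW g
  refine ⟨N, ?_⟩
  rw [mkC_act_sub, mkC_eq_zero] at hN
  exact pow_inj X h (act_sub_mem g _ N hx) hN

/-- The primitive part of the virtual section comes from the one of `X`. -/
lemma primPart_lift {i w : ℤ} (h : i + w ≤ n) {χ : Γ → Ω} {k : (virt X).C}
    (hk : k ∈ (virt X).primPart i w χ) : ∃ x ∈ X.primPart i w χ, mkC X x = k := by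
  obtain ⟨⟨h1, h2⟩, h3⟩ := hk
  obtain ⟨x, hx, rfl⟩ := exists_rep X h1
  refine ⟨x, ⟨⟨hx, ?_⟩, wt_of_mkC h hx h3⟩, rfl⟩
  have h4 : ((virt X).lefC ^ ((n : ℤ) + 1 - i - w).toNat) (mkC X x) = 0 := h2
  rw [mkC_lef_pow, mkC_eq_zero, ← Module.End.mul_apply, ← pow_add] at h4
  show (X.lefC ^ (((n + c : ℕ) : ℤ) + 1 - i - w).toNat) x = 0
  rw [show (((n + c : ℕ) : ℤ) + 1 - i - w).toNat = c + ((n : ℤ) + 1 - i - w).toNat by
    push_cast; omega]
  exact h4

lemma simple_lift {i w : ℤ} (h : i + w ≤ n) {χ : Γ → Ω} (hs : X.SimpleAt i w χ) :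
    (virt X).SimpleAt i w χ := by
  rcases hs with hs | hs | hs
  · left
    have h1 : (virt X).primPart i w χ ≤ (X.primPart i w χ).map (mkC X) := by
      intro k hk
      obtain ⟨x, hx, rfl⟩ := primPart_lift h hk
      exact ⟨x, hx, rfl⟩
    have h2 := Submodule.finrank_mono h1
    have h3 := Submodule.finrank_map_le (mkC X) (X.primPart i w χ)
    omega
  · right; left
    intro k hk
    obtain ⟨x, hx, rfl⟩ := primPart_lift h hk
    obtain ⟨y, hy, hyx⟩ := hs hx
    exact ⟨mkC X y, mkC_mem X hy, by rw [mkC_diff, hyx]⟩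
  · right; right
    rw [Submodule.disjoint_def]
    intro k hk hk'
    obtain ⟨x, hx, rfl⟩ := primPart_lift h hk
    obtain ⟨l, hl, hlx⟩ := hk'
    obtain ⟨y, hy, rfl⟩ := exists_rep X hl
    rw [mkC_diff] at hlx
    have h1 : X.diff (i - 1) y ∈ X.E₁ i w := X.mem_E₁_cast (by ring) rfl (X.diff_mem hy)
    have h2 : X.diff (i - 1) y - x = 0 := by
      apply pow_inj X h (Submodule.sub_mem _ h1 hx.1.1)
      rw [← mkC_eq_zero, map_sub, hlx, sub_self]
    have h3 : x ∈ X.coboundaries i w := ⟨y, hy, sub_eq_zero.1 h2⟩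
    rw [(Submodule.disjoint_def.1 hs) x hx h3, map_zero]

lemma covered_lift {i w : ℤ} (h : i + w ≤ n) {χ : Γ → Ω} (hs : CoveredAt X i w χ) :
    CoveredAt (virt X) i w χ := by
  intro k hk
  obtain ⟨x, hx, rfl⟩ := primPart_lift h hk
  obtain ⟨y, hy, hyx⟩ := hs hx
  exact ⟨mkC X y, mkC_mem X hy, by rw [mkC_diff, hyx]⟩

lemma act_mv (a : ℕ) (g : Γ) (x : X.H a) :
    (virt X).act a g (mv X a x) = mv X a (X.act a g x) := rfl

lemma wt_lift {a : ℕ} {w : ℤ} (h : a + w ≤ n) {χ : Γ → Ω} {x : X.H a} (hx : x ∈ X.gr a w)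
    (hW : mv X a x ∈ Wt ((virt X).act a) χ) : x ∈ Wt (X.act a) χ := by
  rw [mem_Wt] at hW ⊢
  intro g
  obtain ⟨N, hN⟩ := hW g
  refine ⟨N, ?_⟩
  have h1 : ∀ N : ℕ, (((virt X).act a g - χ g • (1 : Module.End Ω ((virt X).H a))) ^ N)
      (mv X a x) = mv X a (((X.act a g - χ g • (1 : Module.End Ω (X.H a))) ^ N) x) := by
    intro N
    induction N with
    | zero => rfl
    | succ N ih =>
      rw [pow_succ', Module.End.mul_apply, ih, pow_succ', Module.End.mul_apply]
      simp only [LinearMap.sub_apply, LinearMap.smul_apply, Module.End.one_apply]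
      rw [act_mv, map_sub, map_smul]
  have h2 : ∀ N : ℕ, ((X.act a g - χ g • (1 : Module.End Ω (X.H a))) ^ N) x ∈ X.gr a w := by
    intro N
    induction N with
    | zero => exact hx
    | succ N ih =>
      rw [pow_succ', Module.End.mul_apply]
      simp only [LinearMap.sub_apply, LinearMap.smul_apply, Module.End.one_apply]
      exact Submodule.sub_mem _ (X.act_gr _ _ _ _ ih) (Submodule.smul_mem _ _ ih)
  rw [h1, mv_eq_zero] at hN
  obtain ⟨s, hs⟩ := Int.eq_ofNat_of_zero_le (show 0 ≤ (n : ℤ) - a - w by omega)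
  apply X.lef_inj a (s + c) _ _ (by rw [pow_add, Module.End.mul_apply, hN, map_zero])
  have h3 := h2 N
  rwa [show (((n + c : ℕ) : ℤ)) - a - ((s + c : ℕ) : ℤ) = w by push_cast; omega]

/-- Controlled characters of `X` are controlled for the virtual section. -/
theorem controlled_lift {a w : ℕ} (h : a + 1 + w ≤ n) {χ : Γ → Ω} (hA : ControlledAt A a w χ) :
    ControlledAt (virtDiv A) a w χ := by
  rcases hA with hA | hA | hA | ⟨h2, hA⟩
  · exact Or.inl (simple_lift (by omega) hA)
  · exact Or.inr (Or.inl (covered_lift (by omega) hA))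
  · refine Or.inr (Or.inr (Or.inl ?_))
    unfold AbsentAt
    rw [Submodule.disjoint_def]
    intro k hk hk'
    obtain ⟨x, hx, rfl⟩ := (mv_mem X a w).1 hk
    rw [(Submodule.disjoint_def.1 hA) x hx (wt_lift (by omega) hx hk'), map_zero]
  · refine Or.inr (Or.inr (Or.inr ⟨h2, ?_⟩))
    intro k hk hk'
    obtain ⟨x, hx, rfl⟩ := (mv_mem X a 2).1 hk
    have h1 := hA x hx (wt_lift (by omega) hx hk')
    have h3 : mv X a x ∈ (Submodule.span Ω (A.A1 a : Set (X.H a))).map (mv X a) := ⟨x, h1, rfl⟩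
    rw [Submodule.map_span] at h3
    exact h3

end Pool.Agent.H849.SEC
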