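import Pool.Agent.H849.SEC.Gen
import Pool.Agent.H849.SEC.KCtrl

/-!
# Ample maps to a strictly semistable scheme
-/

set_option autoImplicit false

namespace Pool.Agent.H849.SEC

open Module Pool.Agent.Y143 Pool.Agent.R942.WB Pool.Agent.R942.WM
open Pool.Agent.X302.MW (ControlledAt)

universe u v

variable {Ω : Type u} [Field Ω] [CharZero Ω] {Γ : Type} {n q c : ℕ}

variable {X : SpecialFibre.{u, v} Ω Γ (n + c) q}

section Z

variable {Z : SemistableModel.{u, v} Ω Γ n q}
  (hZ : HasAmpleMap n c X.toStrataData Z.toStrataData)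

include hZ

/-- Purity of `Z` in terms of the virtual section. -/
theorem pure_iff_virt [IsAlgClosed Ω] (hq : 1 < q) (j : ℕ) :
    IsPureIn Z j ↔ ∀ k : ℕ, 1 ≤ k → NInj (virt X).diff (virt X).tot k ((j : ℤ) - n) ∧
      NSurj (virt X).diff (virt X).tot k ((j : ℤ) - n) := by
  rw [pure_iff_E₂ Z hq j]
  obtain ⟨f, t, hf⟩ := hZ
  refine forall_congr' fun k => forall_congr' fun hk => ?_
  rw [(Amp.retract (Z := Z.toSpecialFibre) hf).nInj_iff,
    (Amp.retract (Z := Z.toSpecialFibre) hf).nSurj_iff]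

theorem pure_of_controlled [IsAlgClosed Ω] (hq : 1 < q) (j : ℕ)
    (hX : X.toStrataData.HasHardLefschetz (n + c)) (A : DivisorClasses X)
    (hA : ControlledUpTo A n j) : IsPureIn Z j := by
  rw [pure_iff_virt hZ hq j]
  obtain ⟨M, hM⟩ := Int.eq_ofNat_of_zero_le (abs_nonneg ((j : ℤ) - n))
  have hA' : ∀ (a w : ℕ) (χ : Γ → Ω), 2 ≤ w → a + 1 + w + M ≤ n →
      ControlledAt (virtDiv A) a w χ := by
    intro a w χ hw h
    refine controlled_lift A (by omega) (hA a w χ hw ?_ ?_)
    · rcases le_total (0 : ℤ) ((j : ℤ) - n) with h1 | h1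
      · omega
      · rw [abs_of_nonpos h1] at hM
        omega
    · rcases le_total (0 : ℤ) ((j : ℤ) - n) with h1 | h1
      · rw [abs_of_nonneg h1] at hM
        omega
      · omega
  intro k hk
  have hk' : (1 : ℤ) ≤ k := by exact_mod_cast hk
  exact ⟨nInj_tot (virt X) (virt_hardLefschetz X hX) (virtDiv A) M hA' k hk' _ (by omega),
    nSurj_tot (virt X) (virt_hardLefschetz X hX) (virtDiv A) M hA' k hk' _ (by omega)⟩

theorem pure_of_polarised [IsAlgClosed Ω] (hq : 1 < q) (j : ℕ)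
    (hX : X.toStrataData.HasHardLefschetz (n + c))
    (hP : IsPolarised X.toStrataData (n + c) (min (j : ℤ) (2 * n - j))) : IsPureIn Z j := by
  rw [pure_iff_virt hZ hq j]
  intro k hk
  exact nInj_nSurj_pol (virt_hardLefschetz X hX) (virt_polarised hP) k hk

end Z

end Pool.Agent.H849.SEC
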