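import Pool.Agent.H849.SEC.Comp
import Pool.Agent.H849.SEC.Pol

/-!
# The Hodge-Riemann relations for the virtual section
-/

set_option autoImplicit false

namespace Pool.Agent.H849.SEC

open Module Pool.Agent.Y143

universe u v

variable {Ω : Type u} [Field Ω] [CharZero Ω] {Γ : Type} {n q c : ℕ}

variable (X : SpecialFibre.{u, v} Ω Γ (n + c) q)

lemma lef_pow_mv (s a : ℕ) (x : X.H a) :
    ((virt X).lef a ^ s) (mv X a x) = mv X a ((X.lef a ^ s) x) := lef_pow_mk X c s a x

lemma mv_eq_iff {a : ℕ} {x y : X.H a} :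
    mv X a x = mv X a y ↔ (X.lef a ^ c) (x - y) = 0 := by
  rw [← sub_eq_zero, ← map_sub, mv_eq_zero]

variable {X} {J : ∀ a, X.H a →+ X.H a} (hJ : IsConjugation X.toStrataData J)

include hJ in
lemma mv_J {a : ℕ} {x y : X.H a} (h : mv X a x = mv X a y) :
    mv X a (J a x) = mv X a (J a y) := by
  rw [mv_eq_iff] at h ⊢
  rw [← map_sub, ← J_pow hJ, h, map_zero]

/-- The conjugation on the virtual section. -/
noncomputable def conjV (a : ℕ) : (virt X).H a →+ (virt X).H a where
  toFun k := mv X a (J a (mv_surj X a k).choose)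
  map_zero' := by
    have h1 := (mv_surj X a (0 : (virt X).H a)).choose_spec
    have h2 : mv X a (mv_surj X a (0 : (virt X).H a)).choose = mv X a 0 := by
      rw [h1, map_zero]
    rw [mv_J hJ h2, map_zero, map_zero]
  map_add' k l := by
    have h2 : mv X a (mv_surj X a (k + l)).choose =
        mv X a ((mv_surj X a k).choose + (mv_surj X a l).choose) := by
      rw [map_add, (mv_surj X a k).choose_spec, (mv_surj X a l).choose_spec,
        (mv_surj X a (k + l)).choose_spec]
    rw [mv_J hJ h2, map_add, map_add]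

lemma conjV_mv (a : ℕ) (x : X.H a) : conjV hJ a (mv X a x) = mv X a (J a x) :=
  mv_J hJ (mv_surj X a (mv X a x)).choose_spec

theorem virt_conj : IsConjugation (virt X).toStrataData (conjV hJ) where
  lef a x := by
    obtain ⟨x, rfl⟩ := mv_surj X a x
    show conjV hJ a ((virt X).lef a _) = (virt X).lef a _
    rw [lef_mv, conjV_mv, conjV_mv, lef_mv, hJ.lef]
  res a x := by
    obtain ⟨x, rfl⟩ := mv_surj X a x
    show conjV hJ (a + 1) ((virt X).res a _) = (virt X).res a _
    rw [res_mv, conjV_mv, conjV_mv, res_mv, hJ.res]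
  gys a x := by
    obtain ⟨x, rfl⟩ := mv_surj X (a + 1) x
    show conjV hJ a ((virt X).gys a _) = (virt X).gys a _
    rw [gys_mv, conjV_mv, conjV_mv, gys_mv, hJ.gys]

omit hJ in
/-- The virtual section satisfies the Hodge-Riemann relations in the same total degrees. -/
theorem virt_polarised {k : ℤ} (h : IsPolarised X.toStrataData (n + c) k) :
    IsPolarised (virt X).toStrataData n k := by
  obtain ⟨P, J, hP, hJ, hpos⟩ := h
  refine ⟨P, conjV hJ, hP, virt_conj hJ, fun a m ha ham s x hs hx hx0 hne => ?_⟩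
  obtain ⟨x, hxm, rfl⟩ := (mv_mem X a m).1 hx
  have h0 : ((virt X).lef a ^ (s + 1)) (mv X a x) = 0 := hx0
  rw [lef_pow_mv, mv_eq_zero, ← Module.End.mul_apply, ← pow_add] at h0
  have h1 := hpos a m ha ham (c + s) x (by push_cast; omega) hxm
    (by show (X.lef a ^ (c + s + 1)) x = 0; rw [add_assoc]; exact h0)
    (fun h => hne (by rw [h, map_zero]))
  have h2 : ev ((virt X).pair a) (mv X a x) (pw ((virt X).lef a) s (conjV hJ a (mv X a x))) =
      ev (X.pair a) x (pw (X.lef a) (c + s) (J a x)) := by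
    show (virt X).pair a (mv X a x) (((virt X).lef a ^ s) (conjV hJ a (mv X a x))) =
      X.pair a x ((X.lef a ^ (c + s)) (J a x))
    rw [conjV_mv, lef_pow_mv, pair_mv, pow_add, Module.End.mul_apply]
  have h3 : (-1 : Ω) ^ (m / 2) * ev ((virt X).pair a) (mv X a x)
      (pw ((virt X).lef a) s (conjV hJ a (mv X a x))) ∈ P := by
    rw [h2]
    exact h1
  exact h3

end Pool.Agent.H849.SEC
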